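import Mathlib

/-!
Reduced Gröbner bases of toric ideals with respect to graded reverse lexicographic orders.
-/

set_option autoImplicit false

namespace Pool.Agent.ToricGB

open MvPolynomial

section GRevLex

variable {σ : Type*}

/-- The strict graded reverse lexicographic order on monomials (exponent vectors) attached to a
linear order `L` of the variables, `t_s` being smaller than `t_r` when `s < r` in `L`:
`u ≺ w` iff `deg u < deg w`, or the degrees agree and at the `L`-smallest variable where `u` and
`w` differ `u` has the larger exponent. -/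
def RevLexLT (L : LinearOrder σ) (u w : σ →₀ ℕ) : Prop :=
  u.degree < w.degree ∨
    (u.degree = w.degree ∧ ∃ s, w s < u s ∧ ∀ t, L.lt t s → u t = w t)

theorem revLexLT_irrefl (L : LinearOrder σ) (u : σ →₀ ℕ) : ¬ RevLexLT L u u := by
  rintro (h | ⟨_, s, h, _⟩)
  · exact lt_irrefl _ h
  · exact lt_irrefl _ h

theorem revLexLT_trans (L : LinearOrder σ) {u w x : σ →₀ ℕ} (h1 : RevLexLT L u w)
    (h2 : RevLexLT L w x) : RevLexLT L u x := by
  rcases h1 with h1 | ⟨h1, s, hs, hs'⟩
  · rcases h2 with h2 | ⟨h2, r, hr, hr'⟩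
    · exact Or.inl (h1.trans h2)
    · exact Or.inl (h2 ▸ h1)
  · rcases h2 with h2 | ⟨h2, r, hr, hr'⟩
    · exact Or.inl (h1 ▸ h2)
    · refine Or.inr ⟨h1.trans h2, ?_⟩
      rcases lt_trichotomy s r with h | h | h
      · refine ⟨s, ?_, fun t ht => ?_⟩
        · rw [← hr' s h]; exact hs
        · rw [hs' t ht, hr' t (lt_trans ht h)]
      · subst h
        refine ⟨s, hr.trans hs, fun t ht => ?_⟩
        rw [hs' t ht, hr' t ht]
      · refine ⟨r, ?_, fun t ht => ?_⟩
        · rw [hs' r h]; exact hr
        · rw [hs' t (lt_trans ht h), hr' t ht]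

theorem revLexLT_trichotomous [Finite σ] (L : LinearOrder σ) {u w : σ →₀ ℕ} (h : u ≠ w) :
    RevLexLT L u w ∨ RevLexLT L w u := by
  classical
  rcases lt_trichotomy u.degree w.degree with hd | hd | hd
  · exact Or.inl (Or.inl hd)
  · have hne : ({s | u s ≠ w s} : Set σ).Nonempty := by
      by_contra hcon
      rw [Set.not_nonempty_iff_eq_empty] at hcon
      apply h
      ext s
      by_contra hs
      have : s ∈ ({s | u s ≠ w s} : Set σ) := hs
      rw [hcon] at this
      exact this
    obtain ⟨s, hs, hmin⟩ := Set.exists_min_image {s | u s ≠ w s} id (Set.toFinite _) hne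
    have key : ∀ t, t < s → u t = w t := by
      intro t ht
      by_contra hcon
      exact absurd (hmin t hcon) (not_le.2 ht)
    rcases lt_or_gt_of_ne (show u s ≠ w s from hs) with h1 | h1
    · exact Or.inr (Or.inr ⟨hd.symm, s, h1, fun t ht => (key t ht).symm⟩)
    · exact Or.inl (Or.inr ⟨hd, s, h1, key⟩)
  · exact Or.inr (Or.inl hd)

theorem revLexLT_add (L : LinearOrder σ) {u w : σ →₀ ℕ} (h : RevLexLT L u w) (c : σ →₀ ℕ) :
    RevLexLT L (u + c) (w + c) := by
  rcases h with h | ⟨h, s, hs, hs'⟩
  · left
    rw [map_add, map_add]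
    omega
  · right
    refine ⟨by rw [map_add, map_add, h], s, ?_, fun t ht => ?_⟩
    · simp only [Finsupp.add_apply]; omega
    · simp only [Finsupp.add_apply, hs' t ht]

theorem revLexLT_of_le [Finite σ] (L : LinearOrder σ) {u w : σ →₀ ℕ} (h : u ≤ w) (hne : u ≠ w) :
    RevLexLT L u w := by
  left
  obtain ⟨c, rfl⟩ := exists_add_of_le h
  rw [map_add]
  have : c.degree ≠ 0 := by
    rw [Ne, Finsupp.degree_eq_zero_iff]
    rintro rfl
    exact hne (by simp)
  omega

theorem revLexLT_wf [Finite σ] (L : LinearOrder σ) : WellFounded (RevLexLT L) := by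
  have hfin : ∀ d : ℕ, ({u : σ →₀ ℕ | u.degree = d} : Set (σ →₀ ℕ)).Finite := by
    intro d
    refine (Set.finite_Iic (Finsupp.equivFunOnFinite.symm (fun _ : σ => d))).subset ?_
    intro u hu s
    simp only [Set.mem_ofPred_eq] at hu
    simp only [Finsupp.equivFunOnFinite_symm_apply_apply]
    rw [← hu]
    exact Finsupp.le_degree s u
  -- every nonempty set has a minimal element
  rw [WellFounded.wellFounded_iff_has_min]
  intro S hS
  obtain ⟨u0, hu0⟩ := hS
  obtain ⟨d, ⟨u1, hu1, hd1⟩, hdmin⟩ := WellFounded.has_min (wellFounded_lt (α := ℕ))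
    ((fun u : σ →₀ ℕ => u.degree) '' S) ⟨_, u0, hu0, rfl⟩
  have : IsTrans (σ →₀ ℕ) (RevLexLT L) := ⟨fun _ _ _ => revLexLT_trans L⟩
  have : Std.Irrefl (RevLexLT L) := ⟨revLexLT_irrefl L⟩
  have : IsStrictOrder (σ →₀ ℕ) (RevLexLT L) := {}
  have hwf : (S ∩ {u : σ →₀ ℕ | u.degree = d}).WellFoundedOn (RevLexLT L) :=
    ((hfin d).subset Set.inter_subset_right).wellFoundedOn
  rw [Set.wellFoundedOn_iff] at hwf
  obtain ⟨v, ⟨hvS, hvd⟩, hv⟩ := hwf.has_min (S ∩ {u : σ →₀ ℕ | u.degree = d}) ⟨u1, hu1, hd1⟩
  refine ⟨v, hvS, fun x hx hlt => ?_⟩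
  have hxd : x.degree = d := by
    rcases hlt with h | ⟨h, _⟩
    · exact absurd (hvd ▸ h) (hdmin _ ⟨x, hx, rfl⟩)
    · exact h.trans hvd
  exact hv x ⟨hx, hxd⟩ ⟨hlt, ⟨hx, hxd⟩, ⟨hvS, hvd⟩⟩

/-- A type synonym of `σ →₀ ℕ` carrying the graded reverse lexicographic order. -/
def RL (_ : LinearOrder σ) : Type _ := σ →₀ ℕ

noncomputable instance (L : LinearOrder σ) : AddCommMonoid (RL L) :=
  inferInstanceAs (AddCommMonoid (σ →₀ ℕ))

instance [Finite σ] (L : LinearOrder σ) : IsStrictTotalOrder (RL L) (fun u w => RevLexLT L u w) where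
  irrefl := revLexLT_irrefl L
  trans _ _ _ := revLexLT_trans L
  trichotomous a b h1 h2 := by
    by_contra hne
    rcases revLexLT_trichotomous L hne with h | h
    · exact h1 h
    · exact h2 h

noncomputable instance [Finite σ] (L : LinearOrder σ) : LinearOrder (RL L) :=
  @linearOrderOfSTO (RL L) (fun u w => RevLexLT L u w) inferInstance (Classical.decRel _)

theorem RL.lt_iff [Finite σ] (L : LinearOrder σ) (u w : RL L) : u < w ↔ RevLexLT L u w := Iff.rfl

instance [Finite σ] (L : LinearOrder σ) : IsOrderedAddMonoid (RL L) where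
  add_le_add_left a b h c := by
    rcases h.lt_or_eq with h | h
    · exact le_of_lt (revLexLT_add L h c)
    · rw [h]

theorem RL.wf [Finite σ] (L : LinearOrder σ) : WellFoundedLT (RL L) :=
  ⟨(revLexLT_wf L : WellFounded (fun u w : RL L => u < w))⟩

/-- The graded reverse lexicographic monomial order. -/
noncomputable def grevlex [Finite σ] (L : LinearOrder σ) : MonomialOrder σ where
  syn := RL L
  toSyn := { toFun := fun u => u, invFun := fun u => u, left_inv := fun _ => rfl,
             right_inv := fun _ => rfl, map_add' := fun _ _ => rfl }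
  toSyn_monotone := by
    intro u w h
    by_cases hne : u = w
    · subst hne; exact le_refl _
    · exact le_of_lt (revLexLT_of_le L h hne)
  wellFoundedLT_syn := RL.wf L

theorem grevlex_lt_iff [Finite σ] (L : LinearOrder σ) (u w : σ →₀ ℕ) :
    (grevlex L).toSyn u < (grevlex L).toSyn w ↔ RevLexLT L u w := Iff.rfl

end GRevLex

section Groebner

variable {σ : Type*} {k : Type*} [Field k]

/-- `G` is the reduced Gröbner basis of the ideal `I` for the monomial order `m`: its elements
are nonzero monic elements of `I`, the leading monomial of every nonzero `f ∈ I` is divisible by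
the leading monomial of an element of `G`, and no monomial of an element `g ∈ G` is divisible by
the leading monomial of another element of `G`. -/
def IsReducedGroebnerBasis (m : MonomialOrder σ) (I : Ideal (MvPolynomial σ k))
    (G : Set (MvPolynomial σ k)) : Prop :=
  (∀ g ∈ G, g ∈ I ∧ g ≠ 0 ∧ m.leadingCoeff g = 1) ∧
  (∀ f ∈ I, f ≠ 0 → ∃ g ∈ G, m.degree g ≤ m.degree f) ∧
  (∀ g ∈ G, ∀ h ∈ G, h ≠ g → ∀ w ∈ g.support, ¬ m.degree h ≤ w)

variable {τ : Type*} (expo : σ → (τ →₀ ℕ))

/-- The exponent vector of the image of a monomial. -/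
noncomputable def phi (u : σ →₀ ℕ) : τ →₀ ℕ := u.sum (fun s c => c • expo s)

theorem phi_add (u w : σ →₀ ℕ) : phi expo (u + w) = phi expo u + phi expo w := by
  classical
  unfold phi
  exact Finsupp.sum_add_index' (by simp) (by intros; rw [add_smul])

theorem phi_single (s : σ) (c : ℕ) : phi expo (Finsupp.single s c) = c • expo s := by
  unfold phi
  rw [Finsupp.sum_single_index]
  simp

/-- The monomial map `t_s ↦ x^(expo s)`. -/
noncomputable def toricMap (k : Type*) [Field k] : MvPolynomial σ k →ₐ[k] MvPolynomial τ k :=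
  aeval (fun s => monomial (expo s) (1 : k))

theorem toricMap_monomial (u : σ →₀ ℕ) (c : k) :
    toricMap expo k (monomial u c) = monomial (phi expo u) c := by
  unfold toricMap
  rw [aeval_monomial]
  have : (u.prod fun s e => (monomial (expo s) (1 : k)) ^ e) = monomial (phi expo u) 1 := by
    unfold phi Finsupp.prod Finsupp.sum
    rw [monomial_sum_one]
    refine Finset.prod_congr rfl fun s _ => ?_
    simp only [monomial_pow, one_pow]
  rw [this, algebraMap_eq, C_mul_monomial, mul_one]

open Classical in
theorem coeff_toricMap (f : MvPolynomial σ k) (t : τ →₀ ℕ) :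
    coeff t (toricMap expo k f) = ∑ u ∈ f.support.filter (fun u => phi expo u = t), coeff u f := by
  conv_lhs => rw [f.as_sum, map_sum, coeff_sum]
  rw [Finset.sum_filter]
  refine Finset.sum_congr rfl fun u _ => ?_
  rw [toricMap_monomial, coeff_monomial]

/-- The toric ideal: the kernel of the monomial map. -/
noncomputable def toricKer (k : Type*) [Field k] : Ideal (MvPolynomial σ k) :=
  RingHom.ker (toricMap expo k)

theorem binomial_mem (u v : σ →₀ ℕ) (h : phi expo u = phi expo v) :
    (monomial u 1 - monomial v 1 : MvPolynomial σ k) ∈ toricKer expo k := by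
  unfold toricKer
  rw [RingHom.mem_ker, map_sub, toricMap_monomial, toricMap_monomial, h, sub_self]

/-- `u` is a standard monomial: the smallest of its fibre. -/
def IsStd (m : MonomialOrder σ) (u : σ →₀ ℕ) : Prop :=
  ∀ w, phi expo w = phi expo u → m.toSyn u ≤ m.toSyn w

variable {expo} {m : MonomialOrder σ}

theorem IsStd.of_le {u w : σ →₀ ℕ} (hu : IsStd expo m u) (h : w ≤ u) : IsStd expo m w := by
  obtain ⟨c, rfl⟩ := exists_add_of_le h
  intro x hx
  have := hu (x + c) (by rw [phi_add, phi_add, hx])
  rw [map_add, map_add] at this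
  exact le_of_add_le_add_right this

theorem exists_std (expo : σ → (τ →₀ ℕ)) (m : MonomialOrder σ) (u : σ →₀ ℕ) :
    ∃ v, phi expo v = phi expo u ∧ IsStd expo m v := by
  obtain ⟨v, hv, hmin⟩ := WellFounded.has_min
    (InvImage.wf m.toSyn (wellFounded_lt (α := m.syn))) {v | phi expo v = phi expo u} ⟨u, rfl⟩
  refine ⟨v, hv, fun w hw => ?_⟩
  exact not_lt.1 (hmin w (hw.trans hv))

theorem IsStd.unique {u v : σ →₀ ℕ} (hu : IsStd expo m u) (hv : IsStd expo m v)
    (h : phi expo u = phi expo v) : u = v :=
  m.toSyn.injective (le_antisymm (hu v h.symm) (hv u h))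

/-- The leading monomial of a nonzero element of the toric ideal is not standard. -/
theorem not_std_degree {f : MvPolynomial σ k} (hf : f ∈ toricKer expo k) (hf0 : f ≠ 0) :
    ¬ IsStd expo m (m.degree f) := by
  classical
  intro hstd
  have h0 : coeff (phi expo (m.degree f)) (toricMap expo k f) = 0 := by
    have : toricMap expo k f = 0 := hf
    rw [this, coeff_zero]
  rw [coeff_toricMap] at h0
  have hmem : m.degree f ∈ f.support.filter (fun u => phi expo u = phi expo (m.degree f)) := by
    rw [Finset.mem_filter]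
    exact ⟨m.degree_mem_support hf0, rfl⟩
  rw [Finset.sum_eq_single_of_mem _ hmem] at h0
  · exact (m.coeff_degree_ne_zero_iff.2 hf0) h0
  · intro w hw hne
    exfalso
    rw [Finset.mem_filter] at hw
    have h1 : m.toSyn (m.degree f) ≤ m.toSyn w := hstd w hw.2
    have h2 : m.toSyn w ≤ m.toSyn (m.degree f) := m.le_degree hw.1
    exact hne (m.toSyn.injective (le_antisymm h2 h1))

theorem degree_binomial {u v : σ →₀ ℕ} (h : m.toSyn v < m.toSyn u) :
    m.degree (monomial u 1 - monomial v 1 : MvPolynomial σ k) = u := by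
  classical
  have hu : m.degree (monomial u (1 : k)) = u := by rw [m.degree_monomial]; simp
  have hv : m.degree (monomial v (1 : k)) = v := by rw [m.degree_monomial]; simp
  rw [m.degree_sub_of_lt (by rw [hu, hv]; exact h), hu]

theorem leadingCoeff_binomial {u v : σ →₀ ℕ} (h : m.toSyn v < m.toSyn u) :
    m.leadingCoeff (monomial u 1 - monomial v 1 : MvPolynomial σ k) = 1 := by
  classical
  have hu : m.degree (monomial u (1 : k)) = u := by rw [m.degree_monomial]; simp
  have hv : m.degree (monomial v (1 : k)) = v := by rw [m.degree_monomial]; simp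
  rw [m.leadingCoeff_sub_of_lt (by rw [hu, hv]; exact h), m.leadingCoeff_monomial]

theorem binomial_ne_zero {u v : σ →₀ ℕ} (h : m.toSyn v < m.toSyn u) :
    (monomial u 1 - monomial v 1 : MvPolynomial σ k) ≠ 0 := by
  rw [← m.leadingCoeff_ne_zero_iff, leadingCoeff_binomial h]
  exact one_ne_zero

/-- Every nonstandard monomial is divisible by a leading monomial of the reduced basis. -/
theorem exists_le_of_not_std {G : Set (MvPolynomial σ k)}
    (hG : IsReducedGroebnerBasis m (toricKer expo k) G) {u : σ →₀ ℕ} (hu : ¬ IsStd expo m u) :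
    ∃ g ∈ G, m.degree g ≤ u := by
  obtain ⟨v, hv, hstd⟩ := exists_std expo m u
  have hlt : m.toSyn v < m.toSyn u := by
    rw [← not_le]
    intro hle
    apply hu
    intro w hw
    exact hle.trans (hstd w (hw.trans hv.symm))
  obtain ⟨g, hg, hle⟩ := hG.2.1 _ (binomial_mem expo u v hv.symm) (binomial_ne_zero (k := k) hlt)
  rw [degree_binomial hlt] at hle
  exact ⟨g, hg, hle⟩

/-- A nonstandard monomial all of whose proper divisors are standard is the leading monomial of
an element `u - v` of the reduced Gröbner basis, `v` being the standard monomial of its fibre. -/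
theorem exists_mem_of_minimal {G : Set (MvPolynomial σ k)}
    (hG : IsReducedGroebnerBasis m (toricKer expo k) G) {u : σ →₀ ℕ} (hu : ¬ IsStd expo m u)
    (hmin : ∀ w, w ≤ u → w ≠ u → IsStd expo m w) :
    ∃ v, IsStd expo m v ∧ phi expo v = phi expo u ∧ (monomial u 1 - monomial v 1) ∈ G := by
  classical
  obtain ⟨g, hg, hle⟩ := exists_le_of_not_std hG hu
  obtain ⟨hgI, hg0, hg1⟩ := hG.1 g hg
  have hdeg : m.degree g = u := by
    by_contra hne
    exact not_std_degree hgI hg0 (hmin _ hle hne)
  -- all other monomials of g are standard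
  have hother : ∀ w ∈ g.support, w ≠ u → IsStd expo m w := by
    intro w hw hne
    by_contra hns
    obtain ⟨h, hh, hhw⟩ := exists_le_of_not_std hG hns
    by_cases hgh : h = g
    · subst hgh
      rw [hdeg] at hhw
      have h1 : m.toSyn u ≤ m.toSyn w := m.toSyn_monotone hhw
      have h2 : m.toSyn w ≤ m.toSyn (m.degree h) := m.le_degree hw
      rw [hdeg] at h2
      exact hne (m.toSyn.injective (le_antisymm h2 h1))
    · exact hG.2.2 g hg h hh hgh w hw hhw
  obtain ⟨v, hv, hstd⟩ := exists_std expo m u
  have hvu : v ≠ u := by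
    rintro rfl
    exact hu hstd
  have hcu : coeff u g = 1 := by rw [← hdeg]; exact hg1
  have hsum : ∀ t, ∑ w ∈ g.support.filter (fun w => phi expo w = t), coeff w g = 0 := by
    intro t
    rw [← coeff_toricMap]
    have : toricMap expo k g = 0 := hgI
    rw [this, coeff_zero]
  refine ⟨v, hstd, hv, ?_⟩
  have hgeq : g = monomial u 1 - monomial v 1 := by
    ext w
    rw [coeff_sub, coeff_monomial, coeff_monomial]
    by_cases hwu : u = w
    · subst hwu
      rw [if_pos rfl, if_neg hvu, hcu, sub_zero]
    · rw [if_neg hwu]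
      by_cases hwv : v = w
      · subst hwv
        rw [if_pos rfl]
        have h1 := hsum (phi expo u)
        have hmu : u ∈ g.support.filter (fun w => phi expo w = phi expo u) := by
          rw [Finset.mem_filter, mem_support_iff, hcu]
          exact ⟨one_ne_zero, rfl⟩
        rw [← Finset.add_sum_erase _ _ hmu, hcu] at h1
        have h2 : ∑ x ∈ (g.support.filter (fun w => phi expo w = phi expo u)).erase u, coeff x g
            = coeff v g := by
          by_cases hvs : v ∈ g.support
          · apply Finset.sum_eq_single_of_mem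
            · rw [Finset.mem_erase, Finset.mem_filter]
              exact ⟨hvu, hvs, hv⟩
            · intro x hx hxv
              exfalso
              rw [Finset.mem_erase, Finset.mem_filter] at hx
              exact hxv ((hother x hx.2.1 hx.1).unique hstd (hx.2.2.trans hv.symm))
          · rw [notMem_support_iff.1 hvs]
            apply Finset.sum_eq_zero
            intro x hx
            exfalso
            rw [Finset.mem_erase, Finset.mem_filter] at hx
            have := (hother x hx.2.1 hx.1).unique hstd (hx.2.2.trans hv.symm)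
            rw [this] at hx
            exact hvs hx.2.1
        rw [h2] at h1
        rw [zero_sub]
        exact (neg_eq_of_add_eq_zero_right h1).symm
      · rw [if_neg hwv, sub_zero]
        by_contra hne
        have hws : w ∈ g.support := mem_support_iff.2 hne
        have hwstd := hother w hws (Ne.symm hwu)
        have hphi : phi expo w ≠ phi expo u := by
          intro h
          exact hwv (hstd.unique hwstd (hv.trans h.symm))
        have h1 := hsum (phi expo w)
        rw [Finset.sum_eq_single_of_mem w (by rw [Finset.mem_filter]; exact ⟨hws, rfl⟩)] at h1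
        · exact hne h1
        · intro x hx hxw
          exfalso
          rw [Finset.mem_filter] at hx
          have hxu : x ≠ u := by
            rintro rfl
            exact hphi hx.2.symm
          exact hxw ((hother x hx.1 hxu).unique hwstd hx.2)
  rw [← hgeq]
  exact hg

/-- The reduced Gröbner basis of a toric ideal exists. -/
theorem exists_isReducedGroebnerBasis (expo : σ → (τ →₀ ℕ)) (m : MonomialOrder σ) :
    ∃ G : Set (MvPolynomial σ k), IsReducedGroebnerBasis m (toricKer expo k) G := by
  classical
  -- well-founded induction gives minimal nonstandard divisors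
  have hmin : ∀ u, ¬ IsStd expo m u → ∃ w ≤ u, ¬ IsStd expo m w ∧
      ∀ x, x ≤ w → x ≠ w → IsStd expo m x := by
    intro u hu
    obtain ⟨w, ⟨hwu, hwn⟩, hwmin⟩ := WellFounded.has_min
      (InvImage.wf m.toSyn (wellFounded_lt (α := m.syn))) {w | w ≤ u ∧ ¬ IsStd expo m w}
      ⟨u, le_refl _, hu⟩
    refine ⟨w, hwu, hwn, fun x hx hxw => ?_⟩
    by_contra hcon
    refine hwmin x ⟨hx.trans hwu, hcon⟩ ?_
    refine lt_of_le_of_ne (m.toSyn_monotone hx) ?_
    intro h
    exact hxw (m.toSyn.injective h)
  refine ⟨{g | ∃ u v, ¬ IsStd expo m u ∧ (∀ x, x ≤ u → x ≠ u → IsStd expo m x) ∧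
    IsStd expo m v ∧ phi expo v = phi expo u ∧ g = monomial u 1 - monomial v 1}, ?_, ?_, ?_⟩
  · rintro g ⟨u, v, hu, -, hv, huv, rfl⟩
    have hlt : m.toSyn v < m.toSyn u := by
      refine lt_of_le_of_ne (hv u huv.symm) ?_
      intro h
      exact hu (m.toSyn.injective h ▸ hv)
    exact ⟨binomial_mem expo u v huv.symm, binomial_ne_zero hlt, leadingCoeff_binomial hlt⟩
  · intro f hf hf0
    obtain ⟨u, hle, hu, humin⟩ := hmin _ (not_std_degree (m := m) hf hf0)
    obtain ⟨v, huv, hv⟩ := exists_std expo m u
    have hlt : m.toSyn v < m.toSyn u := by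
      refine lt_of_le_of_ne (hv u huv.symm) ?_
      intro h
      exact hu (m.toSyn.injective h ▸ hv)
    refine ⟨_, ⟨u, v, hu, humin, hv, huv, rfl⟩, ?_⟩
    rw [degree_binomial hlt]
    exact hle
  · rintro g ⟨u, v, hu, humin, hv, huv, rfl⟩ h ⟨u', v', hu', -, hv', huv', rfl⟩ hne w hw hle
    have hlt : m.toSyn v < m.toSyn u := by
      refine lt_of_le_of_ne (hv u huv.symm) ?_
      intro h
      exact hu (m.toSyn.injective h ▸ hv)
    have hlt' : m.toSyn v' < m.toSyn u' := by
      refine lt_of_le_of_ne (hv' u' huv'.symm) ?_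
      intro h
      exact hu' (m.toSyn.injective h ▸ hv')
    rw [degree_binomial hlt'] at hle
    have hwuv : w = u ∨ w = v := by
      by_contra hcon
      push Not at hcon
      rw [mem_support_iff, coeff_sub, coeff_monomial, coeff_monomial, if_neg hcon.1.symm,
        if_neg hcon.2.symm] at hw
      exact hw (sub_zero _)
    rcases hwuv with rfl | rfl
    · by_cases huu : u' = w
      · subst huu
        have : v' = v := hv'.unique hv (huv'.trans huv.symm)
        subst this
        exact hne rfl
      · exact hu' (humin _ hle huu)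
    · exact hu' (hv.of_le hle)

end Groebner

end Pool.Agent.ToricGB
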