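import Pool.Agent.ToricGB.SymStoch

/-!
Two faces of the polytope of symmetric `6 × 6` matrices with row sums `2`.
-/

set_option autoImplicit false

namespace Pool.Agent.ToricGB.Six

open Pool.Agent.ToricGB

/-- A lattice point given by its rows. -/
def mk6 (f : Fin 6 → Fin 6 → ℕ) (h1 : ∀ i j, f j i = f i j) (h2 : ∀ i, ∑ j, f i j = 2) : LP 6 :=
  ⟨Matrix.of f, Matrix.IsSymm.ext h1, h2⟩

theorem ext6 (M N : LP 6) (h00 : M.1 0 0 = N.1 0 0) (h01 : M.1 0 1 = N.1 0 1) (h02 : M.1 0 2 = N.1 0 2) (h03 : M.1 0 3 = N.1 0 3) (h04 : M.1 0 4 = N.1 0 4) (h05 : M.1 0 5 = N.1 0 5) (h11 : M.1 1 1 = N.1 1 1) (h12 : M.1 1 2 = N.1 1 2) (h13 : M.1 1 3 = N.1 1 3) (h14 : M.1 1 4 = N.1 1 4) (h15 : M.1 1 5 = N.1 1 5) (h22 : M.1 2 2 = N.1 2 2) (h23 : M.1 2 3 = N.1 2 3) (h24 : M.1 2 4 = N.1 2 4) (h25 : M.1 2 5 = N.1 2 5) (h33 : M.1 3 3 = N.1 3 3) (h34 : M.1 3 4 = N.1 3 4) (h35 : M.1 3 5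 = N.1 3 5) (h44 : M.1 4 4 = N.1 4 4) (h45 : M.1 4 5 = N.1 4 5) (h55 : M.1 5 5 = N.1 5 5) : M = N := by
  have key : ∀ i j : Fin 6, i ≤ j → M.1 i j = N.1 i j := by
    intro i j hij
    fin_cases i <;> fin_cases j <;> first | exact absurd hij (by decide) | assumption
  apply Subtype.ext
  ext i j
  rcases le_total i j with h | h
  · exact key i j h
  · rw [← M.2.1.apply i j, ← N.2.1.apply i j]
    exact key j i h

def fa1 : Fin 6 → Fin 6 → ℕ := ![![0, 0, 0, 0, 2, 0], ![0, 0, 0, 0, 0, 2], ![0, 0, 0, 2, 0, 0], ![0, 0, 2, 0, 0, 0], ![2, 0, 0, 0, 0, 0], ![0, 2, 0, 0, 0, 0]]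
def a1 : LP 6 := mk6 fa1 (by decide) (by decide)
def fb1 : Fin 6 → Fin 6 → ℕ := ![![0, 0, 0, 0, 0, 2], ![0, 0, 0, 0, 2, 0], ![0, 0, 0, 2, 0, 0], ![0, 0, 2, 0, 0, 0], ![0, 2, 0, 0, 0, 0], ![2, 0, 0, 0, 0, 0]]
def b1 : LP 6 := mk6 fb1 (by decide) (by decide)
def fc1 : Fin 6 → Fin 6 → ℕ := ![![0, 0, 0, 0, 1, 1], ![0, 0, 0, 0, 1, 1], ![0, 0, 0, 2, 0, 0], ![0, 0, 2, 0, 0, 0], ![1, 1, 0, 0, 0, 0], ![1, 1, 0, 0, 0, 0]]
def c1 : LP 6 := mk6 fc1 (by decide) (by decide)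
def fT1 : Fin 6 → Fin 6 → ℕ := ![![0, 0, 0, 0, 0, 2], ![0, 0, 1, 0, 1, 0], ![0, 1, 0, 0, 1, 0], ![0, 0, 0, 2, 0, 0], ![0, 1, 1, 0, 0, 0], ![2, 0, 0, 0, 0, 0]]
def T1 : LP 6 := mk6 fT1 (by decide) (by decide)
def fP1 : Fin 6 → Fin 6 → ℕ := ![![0, 0, 0, 0, 1, 1], ![0, 0, 1, 0, 0, 1], ![0, 1, 0, 0, 1, 0], ![0, 0, 0, 2, 0, 0], ![1, 0, 1, 0, 0, 0], ![1, 1, 0, 0, 0, 0]]
def P1 : LP 6 := mk6 fP1 (by decide) (by decide)
def fA1 : Fin 6 → Fin 6 → ℕ := ![![0, 0, 0, 0, 2, 4], ![0, 0, 2, 0, 2, 2], ![0, 2, 0, 2, 2, 0], ![0, 0, 2, 4, 0, 0], ![2, 2, 2, 0, 0, 0], ![4, 2, 0, 0, 0, 0]]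
def A1 : Matrix (Fin 6) (Fin 6) ℕ := !![0, 0, 0, 0, 2, 4; 0, 0, 2, 0, 2, 2; 0, 2, 0, 2, 2, 0; 0, 0, 2, 4, 0, 0; 2, 2, 2, 0, 0, 0; 4, 2, 0, 0, 0, 0]

theorem classify1 (M : LP 6) (h : ∀ i j, M.1 i j ≤ A1 i j) :
    M = a1 ∨ M = b1 ∨ M = c1 ∨ M = T1 ∨ M = P1 := by
  have h00 : M.1 0 0 ≤ 0 := h 0 0
  have h01 : M.1 0 1 ≤ 0 := h 0 1
  have h02 : M.1 0 2 ≤ 0 := h 0 2
  have h03 : M.1 0 3 ≤ 0 := h 0 3
  have h04 : M.1 0 4 ≤ 2 := h 0 4
  have h05 : M.1 0 5 ≤ 4 := h 0 5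
  have h11 : M.1 1 1 ≤ 0 := h 1 1
  have h12 : M.1 1 2 ≤ 2 := h 1 2
  have h13 : M.1 1 3 ≤ 0 := h 1 3
  have h14 : M.1 1 4 ≤ 2 := h 1 4
  have h15 : M.1 1 5 ≤ 2 := h 1 5
  have h22 : M.1 2 2 ≤ 0 := h 2 2
  have h23 : M.1 2 3 ≤ 2 := h 2 3
  have h24 : M.1 2 4 ≤ 2 := h 2 4
  have h25 : M.1 2 5 ≤ 0 := h 2 5
  have h33 : M.1 3 3 ≤ 4 := h 3 3
  have h34 : M.1 3 4 ≤ 0 := h 3 4
  have h35 : M.1 3 5 ≤ 0 := h 3 5
  have h44 : M.1 4 4 ≤ 0 := h 4 4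
  have h45 : M.1 4 5 ≤ 0 := h 4 5
  have h55 : M.1 5 5 ≤ 0 := h 5 5
  have s10 : M.1 1 0 = M.1 0 1 := M.2.1.apply 0 1
  have s20 : M.1 2 0 = M.1 0 2 := M.2.1.apply 0 2
  have s21 : M.1 2 1 = M.1 1 2 := M.2.1.apply 1 2
  have s30 : M.1 3 0 = M.1 0 3 := M.2.1.apply 0 3
  have s31 : M.1 3 1 = M.1 1 3 := M.2.1.apply 1 3
  have s32 : M.1 3 2 = M.1 2 3 := M.2.1.apply 2 3
  have s40 : M.1 4 0 = M.1 0 4 := M.2.1.apply 0 4
  have s41 : M.1 4 1 = M.1 1 4 := M.2.1.apply 1 4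
  have s42 : M.1 4 2 = M.1 2 4 := M.2.1.apply 2 4
  have s43 : M.1 4 3 = M.1 3 4 := M.2.1.apply 3 4
  have s50 : M.1 5 0 = M.1 0 5 := M.2.1.apply 0 5
  have s51 : M.1 5 1 = M.1 1 5 := M.2.1.apply 1 5
  have s52 : M.1 5 2 = M.1 2 5 := M.2.1.apply 2 5
  have s53 : M.1 5 3 = M.1 3 5 := M.2.1.apply 3 5
  have s54 : M.1 5 4 = M.1 4 5 := M.2.1.apply 4 5
  have r0 := M.2.2 0
  have r1 := M.2.2 1
  have r2 := M.2.2 2
  have r3 := M.2.2 3
  have r4 := M.2.2 4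
  have r5 := M.2.2 5
  simp only [Fin.sum_univ_six] at r0 r1 r2 r3 r4 r5
  rw [s10] at r1
  rw [s20, s21] at r2
  rw [s30, s31, s32] at r3
  rw [s40, s41, s42, s43] at r4
  rw [s50, s51, s52, s53, s54] at r5
  clear h s10 s20 s21 s30 s31 s32 s40 s41 s42 s43 s50 s51 s52 s53 s54
  have z00 : M.1 0 0 = 0 := Nat.le_zero.1 h00
  have z01 : M.1 0 1 = 0 := Nat.le_zero.1 h01
  have z02 : M.1 0 2 = 0 := Nat.le_zero.1 h02
  have z03 : M.1 0 3 = 0 := Nat.le_zero.1 h03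
  have z11 : M.1 1 1 = 0 := Nat.le_zero.1 h11
  have z13 : M.1 1 3 = 0 := Nat.le_zero.1 h13
  have z22 : M.1 2 2 = 0 := Nat.le_zero.1 h22
  have z25 : M.1 2 5 = 0 := Nat.le_zero.1 h25
  have z34 : M.1 3 4 = 0 := Nat.le_zero.1 h34
  have z35 : M.1 3 5 = 0 := Nat.le_zero.1 h35
  have z44 : M.1 4 4 = 0 := Nat.le_zero.1 h44
  have z45 : M.1 4 5 = 0 := Nat.le_zero.1 h45
  have z55 : M.1 5 5 = 0 := Nat.le_zero.1 h55
  simp only [z00, z01, z02, z03, z11, z13, z22, z25, z34, z35, z44, z45, z55, add_zero, zero_add] at r0 r1 r2 r3 r4 r5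
  clear h00 h01 h02 h03 h11 h13 h22 h25 h34 h35 h44 h45 h55
  have q : M.1 1 2 = 0 ∨ M.1 1 2 = 1 := by omega
  have p : M.1 0 4 = 0 ∨ M.1 0 4 = 1 ∨ M.1 0 4 = 2 := by omega
  rcases q with q | q
  · rcases p with p | p | p
    · exact Or.inr (Or.inl (ext6 M b1 z00 z01 z02 z03 (by show M.1 0 4 = 0; omega) (by show M.1 0 5 = 2; omega) z11 (by show M.1 1 2 = 0; omega) z13 (by show M.1 1 4 = 2; omega) (by show M.1 1 5 = 0; omega) z22 (by show M.1 2 3 = 2; omega) (by show M.1 2 4 = 0; omega) z25 (by show M.1 3 3 = 0; omega) z34 z35 z44 z45 z55))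
    · exact Or.inr (Or.inr (Or.inl (ext6 M c1 z00 z01 z02 z03 (by show M.1 0 4 = 1; omega) (by show M.1 0 5 = 1; omega) z11 (by show M.1 1 2 = 0; omega) z13 (by show M.1 1 4 = 1; omega) (by show M.1 1 5 = 1; omega) z22 (by show M.1 2 3 = 2; omega) (by show M.1 2 4 = 0; omega) z25 (by show M.1 3 3 = 0; omega) z34 z35 z44 z45 z55)))
    · exact Or.inl (ext6 M a1 z00 z01 z02 z03 (by show M.1 0 4 = 2; omega) (by show M.1 0 5 = 0; omega) z11 (by show M.1 1 2 = 0; omega) z13 (by show M.1 1 4 = 0; omega) (by show M.1 1 5 = 2; omega) z22 (by show M.1 2 3 = 2; omega) (by show M.1 2 4 = 0; omega) z25 (by show M.1 3 3 = 0; omega) z34 z35 z44 z45 z55)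
  · rcases p with p | p | p
    · exact Or.inr (Or.inr (Or.inr (Or.inl (ext6 M T1 z00 z01 z02 z03 (by show M.1 0 4 = 0; omega) (by show M.1 0 5 = 2; omega) z11 (by show M.1 1 2 = 1; omega) z13 (by show M.1 1 4 = 1; omega) (by show M.1 1 5 = 0; omega) z22 (by show M.1 2 3 = 0; omega) (by show M.1 2 4 = 1; omega) z25 (by show M.1 3 3 = 2; omega) z34 z35 z44 z45 z55))))
    · exact Or.inr (Or.inr (Or.inr (Or.inr (ext6 M P1 z00 z01 z02 z03 (by show M.1 0 4 = 1; omega) (by show M.1 0 5 = 1; omega) z11 (by show M.1 1 2 = 1; omega) z13 (by show M.1 1 4 = 0; omega) (by show M.1 1 5 = 1; omega) z22 (by show M.1 2 3 = 0; omega) (by show M.1 2 4 = 1; omega) z25 (by show M.1 3 3 = 2; omega) z34 z35 z44 z45 z55))))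
    · omega

def fZ0 : Fin 6 → Fin 6 → ℕ := ![![0, 1, 0, 0, 0, 1], ![1, 0, 0, 0, 0, 1], ![0, 0, 0, 0, 2, 0], ![0, 0, 0, 2, 0, 0], ![0, 0, 2, 0, 0, 0], ![1, 1, 0, 0, 0, 0]]
def Z0 : LP 6 := mk6 fZ0 (by decide) (by decide)
def fZ1 : Fin 6 → Fin 6 → ℕ := ![![0, 1, 0, 0, 0, 1], ![1, 0, 0, 0, 0, 1], ![0, 0, 1, 0, 1, 0], ![0, 0, 0, 2, 0, 0], ![0, 0, 1, 0, 1, 0], ![1, 1, 0, 0, 0, 0]]
def Z1 : LP 6 := mk6 fZ1 (by decide) (by decide)
def fU0 : Fin 6 → Fin 6 → ℕ := ![![0, 0, 0, 0, 0, 2], ![0, 0, 0, 2, 0, 0], ![0, 0, 0, 0, 2, 0], ![0, 2, 0, 0, 0, 0], ![0, 0, 2, 0, 0, 0], ![2, 0, 0, 0, 0, 0]]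
def U0 : LP 6 := mk6 fU0 (by decide) (by decide)
def fU1 : Fin 6 → Fin 6 → ℕ := ![![0, 0, 0, 0, 0, 2], ![0, 0, 0, 2, 0, 0], ![0, 0, 1, 0, 1, 0], ![0, 2, 0, 0, 0, 0], ![0, 0, 1, 0, 1, 0], ![2, 0, 0, 0, 0, 0]]
def U1 : LP 6 := mk6 fU1 (by decide) (by decide)
def fW1 : Fin 6 → Fin 6 → ℕ := ![![0, 0, 0, 0, 0, 2], ![0, 0, 1, 1, 0, 0], ![0, 1, 0, 0, 1, 0], ![0, 1, 0, 1, 0, 0], ![0, 0, 1, 0, 1, 0], ![2, 0, 0, 0, 0, 0]]
def W1 : LP 6 := mk6 fW1 (by decide) (by decide)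
def fW2 : Fin 6 → Fin 6 → ℕ := ![![0, 0, 0, 0, 0, 2], ![0, 0, 0, 1, 1, 0], ![0, 0, 1, 0, 1, 0], ![0, 1, 0, 1, 0, 0], ![0, 1, 1, 0, 0, 0], ![2, 0, 0, 0, 0, 0]]
def W2 : LP 6 := mk6 fW2 (by decide) (by decide)
def fR1 : Fin 6 → Fin 6 → ℕ := ![![0, 0, 0, 0, 0, 2], ![0, 0, 1, 0, 1, 0], ![0, 1, 0, 0, 1, 0], ![0, 0, 0, 2, 0, 0], ![0, 1, 1, 0, 0, 0], ![2, 0, 0, 0, 0, 0]]
def R1 : LP 6 := mk6 fR1 (by decide) (by decide)
def fR2 : Fin 6 → Fin 6 → ℕ := ![![0, 0, 0, 0, 0, 2], ![0, 0, 1, 0, 1, 0], ![0, 1, 1, 0, 0, 0], ![0, 0, 0, 2, 0, 0], ![0, 1, 0, 0, 1, 0], ![2, 0, 0, 0, 0, 0]]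
def R2 : LP 6 := mk6 fR2 (by decide) (by decide)
def fA2 : Fin 6 → Fin 6 → ℕ := ![![0, 1, 0, 0, 0, 5], ![1, 0, 1, 2, 1, 1], ![0, 1, 1, 0, 4, 0], ![0, 2, 0, 4, 0, 0], ![0, 1, 4, 0, 1, 0], ![5, 1, 0, 0, 0, 0]]
def A2 : Matrix (Fin 6) (Fin 6) ℕ := !![0, 1, 0, 0, 0, 5; 1, 0, 1, 2, 1, 1; 0, 1, 1, 0, 4, 0; 0, 2, 0, 4, 0, 0; 0, 1, 4, 0, 1, 0; 5, 1, 0, 0, 0, 0]

theorem classify2 (M : LP 6) (h : ∀ i j, M.1 i j ≤ A2 i j) :
    M = Z0 ∨ M = Z1 ∨ M = U0 ∨ M = U1 ∨ M = W1 ∨ M = W2 ∨ M = R1 ∨ M = R2 := by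
  have h00 : M.1 0 0 ≤ 0 := h 0 0
  have h01 : M.1 0 1 ≤ 1 := h 0 1
  have h02 : M.1 0 2 ≤ 0 := h 0 2
  have h03 : M.1 0 3 ≤ 0 := h 0 3
  have h04 : M.1 0 4 ≤ 0 := h 0 4
  have h05 : M.1 0 5 ≤ 5 := h 0 5
  have h11 : M.1 1 1 ≤ 0 := h 1 1
  have h12 : M.1 1 2 ≤ 1 := h 1 2
  have h13 : M.1 1 3 ≤ 2 := h 1 3
  have h14 : M.1 1 4 ≤ 1 := h 1 4
  have h15 : M.1 1 5 ≤ 1 := h 1 5
  have h22 : M.1 2 2 ≤ 1 := h 2 2
  have h23 : M.1 2 3 ≤ 0 := h 2 3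
  have h24 : M.1 2 4 ≤ 4 := h 2 4
  have h25 : M.1 2 5 ≤ 0 := h 2 5
  have h33 : M.1 3 3 ≤ 4 := h 3 3
  have h34 : M.1 3 4 ≤ 0 := h 3 4
  have h35 : M.1 3 5 ≤ 0 := h 3 5
  have h44 : M.1 4 4 ≤ 1 := h 4 4
  have h45 : M.1 4 5 ≤ 0 := h 4 5
  have h55 : M.1 5 5 ≤ 0 := h 5 5
  have s10 : M.1 1 0 = M.1 0 1 := M.2.1.apply 0 1
  have s20 : M.1 2 0 = M.1 0 2 := M.2.1.apply 0 2
  have s21 : M.1 2 1 = M.1 1 2 := M.2.1.apply 1 2
  have s30 : M.1 3 0 = M.1 0 3 := M.2.1.apply 0 3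
  have s31 : M.1 3 1 = M.1 1 3 := M.2.1.apply 1 3
  have s32 : M.1 3 2 = M.1 2 3 := M.2.1.apply 2 3
  have s40 : M.1 4 0 = M.1 0 4 := M.2.1.apply 0 4
  have s41 : M.1 4 1 = M.1 1 4 := M.2.1.apply 1 4
  have s42 : M.1 4 2 = M.1 2 4 := M.2.1.apply 2 4
  have s43 : M.1 4 3 = M.1 3 4 := M.2.1.apply 3 4
  have s50 : M.1 5 0 = M.1 0 5 := M.2.1.apply 0 5
  have s51 : M.1 5 1 = M.1 1 5 := M.2.1.apply 1 5
  have s52 : M.1 5 2 = M.1 2 5 := M.2.1.apply 2 5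
  have s53 : M.1 5 3 = M.1 3 5 := M.2.1.apply 3 5
  have s54 : M.1 5 4 = M.1 4 5 := M.2.1.apply 4 5
  have r0 := M.2.2 0
  have r1 := M.2.2 1
  have r2 := M.2.2 2
  have r3 := M.2.2 3
  have r4 := M.2.2 4
  have r5 := M.2.2 5
  simp only [Fin.sum_univ_six] at r0 r1 r2 r3 r4 r5
  rw [s10] at r1
  rw [s20, s21] at r2
  rw [s30, s31, s32] at r3
  rw [s40, s41, s42, s43] at r4
  rw [s50, s51, s52, s53, s54] at r5
  clear h s10 s20 s21 s30 s31 s32 s40 s41 s42 s43 s50 s51 s52 s53 s54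
  have z00 : M.1 0 0 = 0 := Nat.le_zero.1 h00
  have z02 : M.1 0 2 = 0 := Nat.le_zero.1 h02
  have z03 : M.1 0 3 = 0 := Nat.le_zero.1 h03
  have z04 : M.1 0 4 = 0 := Nat.le_zero.1 h04
  have z11 : M.1 1 1 = 0 := Nat.le_zero.1 h11
  have z23 : M.1 2 3 = 0 := Nat.le_zero.1 h23
  have z25 : M.1 2 5 = 0 := Nat.le_zero.1 h25
  have z34 : M.1 3 4 = 0 := Nat.le_zero.1 h34
  have z35 : M.1 3 5 = 0 := Nat.le_zero.1 h35
  have z45 : M.1 4 5 = 0 := Nat.le_zero.1 h45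
  have z55 : M.1 5 5 = 0 := Nat.le_zero.1 h55
  simp only [z00, z02, z03, z04, z11, z23, z25, z34, z35, z45, z55, add_zero, zero_add] at r0 r1 r2 r3 r4 r5
  clear h00 h02 h03 h04 h11 h23 h25 h34 h35 h45 h55
  have p : M.1 0 1 = 0 ∨ M.1 0 1 = 1 := by omega
  rcases p with p | p
  · have s : M.1 1 3 = 0 ∨ M.1 1 3 = 1 ∨ M.1 1 3 = 2 := by omega
    rcases s with s | s | s
    · have t : M.1 2 2 = 0 ∨ M.1 2 2 = 1 := by omega
      rcases t with t | t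
      · exact Or.inr (Or.inr (Or.inr (Or.inr (Or.inr (Or.inr (Or.inl (ext6 M R1 z00 (by show M.1 0 1 = 0; omega) z02 z03 z04 (by show M.1 0 5 = 2; omega) z11 (by show M.1 1 2 = 1; omega) (by show M.1 1 3 = 0; omega) (by show M.1 1 4 = 1; omega) (by show M.1 1 5 = 0; omega) (by show M.1 2 2 = 0; omega) z23 (by show M.1 2 4 = 1; omega) z25 (by show M.1 3 3 = 2; omega) z34 z35 (by show M.1 4 4 = 0; omega) z45 z55)))))))
      · exact Or.inr (Or.inr (Or.inr (Or.inr (Or.inr (Or.inr (Or.inr (ext6 M R2 z00 (by show M.1 0 1 = 0; omega) z02 z03 z04 (by show M.1 0 5 = 2; omega) z11 (by show M.1 1 2 = 1; omega) (by show M.1 1 3 = 0; omega) (by show M.1 1 4 = 1; omega) (by show M.1 1 5 = 0; omega) (by show M.1 2 2 = 1; omega) z23 (by show M.1 2 4 = 0; omega) z25 (by show M.1 3 3 = 2; omega) z34 z35 (by show M.1 4 4 = 1; omega) z45 z55)))))))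
    · have t : M.1 1 2 = 0 ∨ M.1 1 2 = 1 := by omega
      rcases t with t | t
      · exact Or.inr (Or.inr (Or.inr (Or.inr (Or.inr (Or.inl (ext6 M W2 z00 (by show M.1 0 1 = 0; omega) z02 z03 z04 (by show M.1 0 5 = 2; omega) z11 (by show M.1 1 2 = 0; omega) (by show M.1 1 3 = 1; omega) (by show M.1 1 4 = 1; omega) (by show M.1 1 5 = 0; omega) (by show M.1 2 2 = 1; omega) z23 (by show M.1 2 4 = 1; omega) z25 (by show M.1 3 3 = 1; omega) z34 z35 (by show M.1 4 4 = 0; omega) z45 z55))))))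
      · exact Or.inr (Or.inr (Or.inr (Or.inr (Or.inl (ext6 M W1 z00 (by show M.1 0 1 = 0; omega) z02 z03 z04 (by show M.1 0 5 = 2; omega) z11 (by show M.1 1 2 = 1; omega) (by show M.1 1 3 = 1; omega) (by show M.1 1 4 = 0; omega) (by show M.1 1 5 = 0; omega) (by show M.1 2 2 = 0; omega) z23 (by show M.1 2 4 = 1; omega) z25 (by show M.1 3 3 = 1; omega) z34 z35 (by show M.1 4 4 = 1; omega) z45 z55)))))
    · have t : M.1 2 2 = 0 ∨ M.1 2 2 = 1 := by omega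
      rcases t with t | t
      · exact Or.inr (Or.inr (Or.inl (ext6 M U0 z00 (by show M.1 0 1 = 0; omega) z02 z03 z04 (by show M.1 0 5 = 2; omega) z11 (by show M.1 1 2 = 0; omega) (by show M.1 1 3 = 2; omega) (by show M.1 1 4 = 0; omega) (by show M.1 1 5 = 0; omega) (by show M.1 2 2 = 0; omega) z23 (by show M.1 2 4 = 2; omega) z25 (by show M.1 3 3 = 0; omega) z34 z35 (by show M.1 4 4 = 0; omega) z45 z55)))
      · exact Or.inr (Or.inr (Or.inr (Or.inl (ext6 M U1 z00 (by show M.1 0 1 = 0; omega) z02 z03 z04 (by show M.1 0 5 = 2; omega) z11 (by show M.1 1 2 = 0; omega) (by show M.1 1 3 = 2; omega) (by show M.1 1 4 = 0; omega) (by show M.1 1 5 = 0; omega) (by show M.1 2 2 = 1; omega) z23 (by show M.1 2 4 = 1; omega) z25 (by show M.1 3 3 = 0; omega) z34 z35 (by show M.1 4 4 = 1; omega) z45 z55))))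
  · have t : M.1 2 2 = 0 ∨ M.1 2 2 = 1 := by omega
    rcases t with t | t
    · exact Or.inl (ext6 M Z0 z00 (by show M.1 0 1 = 1; omega) z02 z03 z04 (by show M.1 0 5 = 1; omega) z11 (by show M.1 1 2 = 0; omega) (by show M.1 1 3 = 0; omega) (by show M.1 1 4 = 0; omega) (by show M.1 1 5 = 1; omega) (by show M.1 2 2 = 0; omega) z23 (by show M.1 2 4 = 2; omega) z25 (by show M.1 3 3 = 2; omega) z34 z35 (by show M.1 4 4 = 0; omega) z45 z55)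
    · exact Or.inr (Or.inl (ext6 M Z1 z00 (by show M.1 0 1 = 1; omega) z02 z03 z04 (by show M.1 0 5 = 1; omega) z11 (by show M.1 1 2 = 0; omega) (by show M.1 1 3 = 0; omega) (by show M.1 1 4 = 0; omega) (by show M.1 1 5 = 1; omega) (by show M.1 2 2 = 1; omega) z23 (by show M.1 2 4 = 1; omega) z25 (by show M.1 3 3 = 2; omega) z34 z35 (by show M.1 4 4 = 1; omega) z45 z55))

theorem ne_of_twos {M N : LP 6} (h : twos M ≠ twos N) : M ≠ N := by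
  rintro rfl
  exact h rfl

theorem le_left {M N X Y A : Matrix (Fin 6) (Fin 6) ℕ} (h : M + N = X + Y)
    (hA : ∀ i j, X i j + Y i j ≤ A i j) : ∀ i j, M i j ≤ A i j := by
  intro i j
  have := congrFun (congrFun h i) j
  simp only [Matrix.add_apply] at this
  have := hA i j
  omega

theorem le_right {M N X Y A : Matrix (Fin 6) (Fin 6) ℕ} (h : M + N = X + Y)
    (hA : ∀ i j, X i j + Y i j ≤ A i j) : ∀ i j, N i j ≤ A i j := by
  intro i j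
  have := congrFun (congrFun h i) j
  simp only [Matrix.add_apply] at this
  have := hA i j
  omega

theorem twos_a1 : twos a1 = 6 := by decide +kernel
theorem twos_b1 : twos b1 = 6 := by decide +kernel
theorem twos_c1 : twos c1 = 2 := by decide +kernel
theorem twos_T1 : twos T1 = 3 := by decide +kernel
theorem twos_P1 : twos P1 = 1 := by decide +kernel
theorem twos_Z0 : twos Z0 = 3 := by decide +kernel
theorem twos_Z1 : twos Z1 = 1 := by decide +kernel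
theorem twos_U0 : twos U0 = 6 := by decide +kernel
theorem twos_U1 : twos U1 = 4 := by decide +kernel
theorem twos_W1 : twos W1 = 2 := by decide +kernel
theorem twos_W2 : twos W2 = 2 := by decide +kernel
theorem twos_R1 : twos R1 = 3 := by decide +kernel
theorem twos_R2 : twos R2 = 3 := by decide +kernel

theorem std_T1_T1 (L : LinearOrder (LP 6)) (hL : ∀ M N : LP 6, twos N < twos M → L.lt M N) :
    IsStd (expo 6) (grevlex L) (pair T1 T1) := by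
  apply isStd_pair
  intro a b h
  have hA : ∀ i j, fT1 i j + fT1 i j ≤ fA1 i j := by decide +kernel
  have ha := classify1 a (le_left (A := A1) h hA)
  have hb := classify1 b (le_right (A := A1) h hA)
  rcases ha with rfl | rfl | rfl | rfl | rfl <;> rcases hb with rfl | rfl | rfl | rfl | rfl
  · exact absurd (congrFun (congrFun h 0) 4) (show ¬ (fa1 0 4 + fa1 0 4 = fT1 0 4 + fT1 0 4) by decide)
  · exact absurd (congrFun (congrFun h 0) 4) (show ¬ (fa1 0 4 + fb1 0 4 = fT1 0 4 + fT1 0 4) by decide)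
  · exact absurd (congrFun (congrFun h 0) 4) (show ¬ (fa1 0 4 + fc1 0 4 = fT1 0 4 + fT1 0 4) by decide)
  · exact absurd (congrFun (congrFun h 0) 4) (show ¬ (fa1 0 4 + fT1 0 4 = fT1 0 4 + fT1 0 4) by decide)
  · exact absurd (congrFun (congrFun h 0) 4) (show ¬ (fa1 0 4 + fP1 0 4 = fT1 0 4 + fT1 0 4) by decide)
  · exact absurd (congrFun (congrFun h 0) 4) (show ¬ (fb1 0 4 + fa1 0 4 = fT1 0 4 + fT1 0 4) by decide)
  · exact absurd (congrFun (congrFun h 1) 2) (show ¬ (fb1 1 2 + fb1 1 2 = fT1 1 2 + fT1 1 2) by decide)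
  · exact absurd (congrFun (congrFun h 0) 4) (show ¬ (fb1 0 4 + fc1 0 4 = fT1 0 4 + fT1 0 4) by decide)
  · exact absurd (congrFun (congrFun h 1) 2) (show ¬ (fb1 1 2 + fT1 1 2 = fT1 1 2 + fT1 1 2) by decide)
  · exact absurd (congrFun (congrFun h 0) 4) (show ¬ (fb1 0 4 + fP1 0 4 = fT1 0 4 + fT1 0 4) by decide)
  · exact absurd (congrFun (congrFun h 0) 4) (show ¬ (fc1 0 4 + fa1 0 4 = fT1 0 4 + fT1 0 4) by decide)
  · exact absurd (congrFun (congrFun h 0) 4) (show ¬ (fc1 0 4 + fb1 0 4 = fT1 0 4 + fT1 0 4) by decide)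
  · exact absurd (congrFun (congrFun h 0) 4) (show ¬ (fc1 0 4 + fc1 0 4 = fT1 0 4 + fT1 0 4) by decide)
  · exact absurd (congrFun (congrFun h 0) 4) (show ¬ (fc1 0 4 + fT1 0 4 = fT1 0 4 + fT1 0 4) by decide)
  · exact absurd (congrFun (congrFun h 0) 4) (show ¬ (fc1 0 4 + fP1 0 4 = fT1 0 4 + fT1 0 4) by decide)
  · exact absurd (congrFun (congrFun h 0) 4) (show ¬ (fT1 0 4 + fa1 0 4 = fT1 0 4 + fT1 0 4) by decide)
  · exact absurd (congrFun (congrFun h 1) 2) (show ¬ (fT1 1 2 + fb1 1 2 = fT1 1 2 + fT1 1 2) by decide)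
  · exact absurd (congrFun (congrFun h 0) 4) (show ¬ (fT1 0 4 + fc1 0 4 = fT1 0 4 + fT1 0 4) by decide)
  · exact Or.inl ⟨rfl, rfl⟩
  · exact absurd (congrFun (congrFun h 0) 4) (show ¬ (fT1 0 4 + fP1 0 4 = fT1 0 4 + fT1 0 4) by decide)
  · exact absurd (congrFun (congrFun h 0) 4) (show ¬ (fP1 0 4 + fa1 0 4 = fT1 0 4 + fT1 0 4) by decide)
  · exact absurd (congrFun (congrFun h 0) 4) (show ¬ (fP1 0 4 + fb1 0 4 = fT1 0 4 + fT1 0 4) by decide)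
  · exact absurd (congrFun (congrFun h 0) 4) (show ¬ (fP1 0 4 + fc1 0 4 = fT1 0 4 + fT1 0 4) by decide)
  · exact absurd (congrFun (congrFun h 0) 4) (show ¬ (fP1 0 4 + fT1 0 4 = fT1 0 4 + fT1 0 4) by decide)
  · exact absurd (congrFun (congrFun h 0) 4) (show ¬ (fP1 0 4 + fP1 0 4 = fT1 0 4 + fT1 0 4) by decide)

theorem std_T1_a1 (L : LinearOrder (LP 6)) (hL : ∀ M N : LP 6, twos N < twos M → L.lt M N) :
    IsStd (expo 6) (grevlex L) (pair T1 a1) := by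
  apply isStd_pair
  intro a b h
  have hA : ∀ i j, fT1 i j + fa1 i j ≤ fA1 i j := by decide +kernel
  have ha := classify1 a (le_left (A := A1) h hA)
  have hb := classify1 b (le_right (A := A1) h hA)
  rcases ha with rfl | rfl | rfl | rfl | rfl <;> rcases hb with rfl | rfl | rfl | rfl | rfl
  · exact absurd (congrFun (congrFun h 0) 4) (show ¬ (fa1 0 4 + fa1 0 4 = fT1 0 4 + fa1 0 4) by decide)
  · exact absurd (congrFun (congrFun h 1) 2) (show ¬ (fa1 1 2 + fb1 1 2 = fT1 1 2 + fa1 1 2) by decide)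
  · exact absurd (congrFun (congrFun h 0) 4) (show ¬ (fa1 0 4 + fc1 0 4 = fT1 0 4 + fa1 0 4) by decide)
  · exact Or.inr (Or.inl ⟨rfl, rfl⟩)
  · exact absurd (congrFun (congrFun h 0) 4) (show ¬ (fa1 0 4 + fP1 0 4 = fT1 0 4 + fa1 0 4) by decide)
  · exact absurd (congrFun (congrFun h 1) 2) (show ¬ (fb1 1 2 + fa1 1 2 = fT1 1 2 + fa1 1 2) by decide)
  · exact absurd (congrFun (congrFun h 0) 4) (show ¬ (fb1 0 4 + fb1 0 4 = fT1 0 4 + fa1 0 4) by decide)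
  · exact absurd (congrFun (congrFun h 0) 4) (show ¬ (fb1 0 4 + fc1 0 4 = fT1 0 4 + fa1 0 4) by decide)
  · exact absurd (congrFun (congrFun h 0) 4) (show ¬ (fb1 0 4 + fT1 0 4 = fT1 0 4 + fa1 0 4) by decide)
  · exact absurd (congrFun (congrFun h 0) 4) (show ¬ (fb1 0 4 + fP1 0 4 = fT1 0 4 + fa1 0 4) by decide)
  · exact absurd (congrFun (congrFun h 0) 4) (show ¬ (fc1 0 4 + fa1 0 4 = fT1 0 4 + fa1 0 4) by decide)
  · exact absurd (congrFun (congrFun h 0) 4) (show ¬ (fc1 0 4 + fb1 0 4 = fT1 0 4 + fa1 0 4) by decide)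
  · exact absurd (congrFun (congrFun h 1) 2) (show ¬ (fc1 1 2 + fc1 1 2 = fT1 1 2 + fa1 1 2) by decide)
  · exact absurd (congrFun (congrFun h 0) 4) (show ¬ (fc1 0 4 + fT1 0 4 = fT1 0 4 + fa1 0 4) by decide)
  · exact Or.inr (Or.inr ⟨a1, Or.inr rfl, hL a1 c1 (by rw [twos_c1, twos_a1]; norm_num), hL a1 P1 (by rw [twos_P1, twos_a1]; norm_num)⟩)
  · exact Or.inl ⟨rfl, rfl⟩
  · exact absurd (congrFun (congrFun h 0) 4) (show ¬ (fT1 0 4 + fb1 0 4 = fT1 0 4 + fa1 0 4) by decide)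
  · exact absurd (congrFun (congrFun h 0) 4) (show ¬ (fT1 0 4 + fc1 0 4 = fT1 0 4 + fa1 0 4) by decide)
  · exact absurd (congrFun (congrFun h 0) 4) (show ¬ (fT1 0 4 + fT1 0 4 = fT1 0 4 + fa1 0 4) by decide)
  · exact absurd (congrFun (congrFun h 0) 4) (show ¬ (fT1 0 4 + fP1 0 4 = fT1 0 4 + fa1 0 4) by decide)
  · exact absurd (congrFun (congrFun h 0) 4) (show ¬ (fP1 0 4 + fa1 0 4 = fT1 0 4 + fa1 0 4) by decide)
  · exact absurd (congrFun (congrFun h 0) 4) (show ¬ (fP1 0 4 + fb1 0 4 = fT1 0 4 + fa1 0 4) by decide)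
  · exact Or.inr (Or.inr ⟨a1, Or.inr rfl, hL a1 P1 (by rw [twos_P1, twos_a1]; norm_num), hL a1 c1 (by rw [twos_c1, twos_a1]; norm_num)⟩)
  · exact absurd (congrFun (congrFun h 0) 4) (show ¬ (fP1 0 4 + fT1 0 4 = fT1 0 4 + fa1 0 4) by decide)
  · exact absurd (congrFun (congrFun h 1) 2) (show ¬ (fP1 1 2 + fP1 1 2 = fT1 1 2 + fa1 1 2) by decide)

theorem std_P1_P1 (L : LinearOrder (LP 6)) (hL : ∀ M N : LP 6, twos N < twos M → L.lt M N) :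
    IsStd (expo 6) (grevlex L) (pair P1 P1) := by
  apply isStd_pair
  intro a b h
  have hA : ∀ i j, fP1 i j + fP1 i j ≤ fA1 i j := by decide +kernel
  have ha := classify1 a (le_left (A := A1) h hA)
  have hb := classify1 b (le_right (A := A1) h hA)
  rcases ha with rfl | rfl | rfl | rfl | rfl <;> rcases hb with rfl | rfl | rfl | rfl | rfl
  · exact absurd (congrFun (congrFun h 0) 4) (show ¬ (fa1 0 4 + fa1 0 4 = fP1 0 4 + fP1 0 4) by decide)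
  · exact absurd (congrFun (congrFun h 1) 2) (show ¬ (fa1 1 2 + fb1 1 2 = fP1 1 2 + fP1 1 2) by decide)
  · exact absurd (congrFun (congrFun h 0) 4) (show ¬ (fa1 0 4 + fc1 0 4 = fP1 0 4 + fP1 0 4) by decide)
  · exact absurd (congrFun (congrFun h 1) 2) (show ¬ (fa1 1 2 + fT1 1 2 = fP1 1 2 + fP1 1 2) by decide)
  · exact absurd (congrFun (congrFun h 0) 4) (show ¬ (fa1 0 4 + fP1 0 4 = fP1 0 4 + fP1 0 4) by decide)
  · exact absurd (congrFun (congrFun h 1) 2) (show ¬ (fb1 1 2 + fa1 1 2 = fP1 1 2 + fP1 1 2) by decide)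
  · exact absurd (congrFun (congrFun h 0) 4) (show ¬ (fb1 0 4 + fb1 0 4 = fP1 0 4 + fP1 0 4) by decide)
  · exact absurd (congrFun (congrFun h 0) 4) (show ¬ (fb1 0 4 + fc1 0 4 = fP1 0 4 + fP1 0 4) by decide)
  · exact absurd (congrFun (congrFun h 0) 4) (show ¬ (fb1 0 4 + fT1 0 4 = fP1 0 4 + fP1 0 4) by decide)
  · exact absurd (congrFun (congrFun h 0) 4) (show ¬ (fb1 0 4 + fP1 0 4 = fP1 0 4 + fP1 0 4) by decide)
  · exact absurd (congrFun (congrFun h 0) 4) (show ¬ (fc1 0 4 + fa1 0 4 = fP1 0 4 + fP1 0 4) by decide)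
  · exact absurd (congrFun (congrFun h 0) 4) (show ¬ (fc1 0 4 + fb1 0 4 = fP1 0 4 + fP1 0 4) by decide)
  · exact absurd (congrFun (congrFun h 1) 2) (show ¬ (fc1 1 2 + fc1 1 2 = fP1 1 2 + fP1 1 2) by decide)
  · exact absurd (congrFun (congrFun h 0) 4) (show ¬ (fc1 0 4 + fT1 0 4 = fP1 0 4 + fP1 0 4) by decide)
  · exact absurd (congrFun (congrFun h 1) 2) (show ¬ (fc1 1 2 + fP1 1 2 = fP1 1 2 + fP1 1 2) by decide)
  · exact absurd (congrFun (congrFun h 1) 2) (show ¬ (fT1 1 2 + fa1 1 2 = fP1 1 2 + fP1 1 2) by decide)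
  · exact absurd (congrFun (congrFun h 0) 4) (show ¬ (fT1 0 4 + fb1 0 4 = fP1 0 4 + fP1 0 4) by decide)
  · exact absurd (congrFun (congrFun h 0) 4) (show ¬ (fT1 0 4 + fc1 0 4 = fP1 0 4 + fP1 0 4) by decide)
  · exact absurd (congrFun (congrFun h 0) 4) (show ¬ (fT1 0 4 + fT1 0 4 = fP1 0 4 + fP1 0 4) by decide)
  · exact absurd (congrFun (congrFun h 0) 4) (show ¬ (fT1 0 4 + fP1 0 4 = fP1 0 4 + fP1 0 4) by decide)
  · exact absurd (congrFun (congrFun h 0) 4) (show ¬ (fP1 0 4 + fa1 0 4 = fP1 0 4 + fP1 0 4) by decide)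
  · exact absurd (congrFun (congrFun h 0) 4) (show ¬ (fP1 0 4 + fb1 0 4 = fP1 0 4 + fP1 0 4) by decide)
  · exact absurd (congrFun (congrFun h 1) 2) (show ¬ (fP1 1 2 + fc1 1 2 = fP1 1 2 + fP1 1 2) by decide)
  · exact absurd (congrFun (congrFun h 0) 4) (show ¬ (fP1 0 4 + fT1 0 4 = fP1 0 4 + fP1 0 4) by decide)
  · exact Or.inl ⟨rfl, rfl⟩

theorem std_P1_b1 (L : LinearOrder (LP 6)) (hL : ∀ M N : LP 6, twos N < twos M → L.lt M N) :
    IsStd (expo 6) (grevlex L) (pair P1 b1) := by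
  apply isStd_pair
  intro a b h
  have hA : ∀ i j, fP1 i j + fb1 i j ≤ fA1 i j := by decide +kernel
  have ha := classify1 a (le_left (A := A1) h hA)
  have hb := classify1 b (le_right (A := A1) h hA)
  rcases ha with rfl | rfl | rfl | rfl | rfl <;> rcases hb with rfl | rfl | rfl | rfl | rfl
  · exact absurd (congrFun (congrFun h 0) 4) (show ¬ (fa1 0 4 + fa1 0 4 = fP1 0 4 + fb1 0 4) by decide)
  · exact absurd (congrFun (congrFun h 0) 4) (show ¬ (fa1 0 4 + fb1 0 4 = fP1 0 4 + fb1 0 4) by decide)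
  · exact absurd (congrFun (congrFun h 0) 4) (show ¬ (fa1 0 4 + fc1 0 4 = fP1 0 4 + fb1 0 4) by decide)
  · exact absurd (congrFun (congrFun h 0) 4) (show ¬ (fa1 0 4 + fT1 0 4 = fP1 0 4 + fb1 0 4) by decide)
  · exact absurd (congrFun (congrFun h 0) 4) (show ¬ (fa1 0 4 + fP1 0 4 = fP1 0 4 + fb1 0 4) by decide)
  · exact absurd (congrFun (congrFun h 0) 4) (show ¬ (fb1 0 4 + fa1 0 4 = fP1 0 4 + fb1 0 4) by decide)
  · exact absurd (congrFun (congrFun h 0) 4) (show ¬ (fb1 0 4 + fb1 0 4 = fP1 0 4 + fb1 0 4) by decide)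
  · exact absurd (congrFun (congrFun h 1) 2) (show ¬ (fb1 1 2 + fc1 1 2 = fP1 1 2 + fb1 1 2) by decide)
  · exact absurd (congrFun (congrFun h 0) 4) (show ¬ (fb1 0 4 + fT1 0 4 = fP1 0 4 + fb1 0 4) by decide)
  · exact Or.inr (Or.inl ⟨rfl, rfl⟩)
  · exact absurd (congrFun (congrFun h 0) 4) (show ¬ (fc1 0 4 + fa1 0 4 = fP1 0 4 + fb1 0 4) by decide)
  · exact absurd (congrFun (congrFun h 1) 2) (show ¬ (fc1 1 2 + fb1 1 2 = fP1 1 2 + fb1 1 2) by decide)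
  · exact absurd (congrFun (congrFun h 0) 4) (show ¬ (fc1 0 4 + fc1 0 4 = fP1 0 4 + fb1 0 4) by decide)
  · exact Or.inr (Or.inr ⟨b1, Or.inr rfl, hL b1 c1 (by rw [twos_c1, twos_b1]; norm_num), hL b1 T1 (by rw [twos_T1, twos_b1]; norm_num)⟩)
  · exact absurd (congrFun (congrFun h 0) 4) (show ¬ (fc1 0 4 + fP1 0 4 = fP1 0 4 + fb1 0 4) by decide)
  · exact absurd (congrFun (congrFun h 0) 4) (show ¬ (fT1 0 4 + fa1 0 4 = fP1 0 4 + fb1 0 4) by decide)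
  · exact absurd (congrFun (congrFun h 0) 4) (show ¬ (fT1 0 4 + fb1 0 4 = fP1 0 4 + fb1 0 4) by decide)
  · exact Or.inr (Or.inr ⟨b1, Or.inr rfl, hL b1 T1 (by rw [twos_T1, twos_b1]; norm_num), hL b1 c1 (by rw [twos_c1, twos_b1]; norm_num)⟩)
  · exact absurd (congrFun (congrFun h 0) 4) (show ¬ (fT1 0 4 + fT1 0 4 = fP1 0 4 + fb1 0 4) by decide)
  · exact absurd (congrFun (congrFun h 1) 2) (show ¬ (fT1 1 2 + fP1 1 2 = fP1 1 2 + fb1 1 2) by decide)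
  · exact absurd (congrFun (congrFun h 0) 4) (show ¬ (fP1 0 4 + fa1 0 4 = fP1 0 4 + fb1 0 4) by decide)
  · exact Or.inl ⟨rfl, rfl⟩
  · exact absurd (congrFun (congrFun h 0) 4) (show ¬ (fP1 0 4 + fc1 0 4 = fP1 0 4 + fb1 0 4) by decide)
  · exact absurd (congrFun (congrFun h 1) 2) (show ¬ (fP1 1 2 + fT1 1 2 = fP1 1 2 + fb1 1 2) by decide)
  · exact absurd (congrFun (congrFun h 0) 4) (show ¬ (fP1 0 4 + fP1 0 4 = fP1 0 4 + fb1 0 4) by decide)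

theorem std_W1_W2 (L : LinearOrder (LP 6)) (hL : ∀ M N : LP 6, twos N < twos M → L.lt N M) :
    IsStd (expo 6) (grevlex L) (pair W1 W2) := by
  apply isStd_pair
  intro a b h
  have hA : ∀ i j, fW1 i j + fW2 i j ≤ fA2 i j := by decide +kernel
  have ha := classify2 a (le_left (A := A2) h hA)
  have hb := classify2 b (le_right (A := A2) h hA)
  rcases ha with rfl | rfl | rfl | rfl | rfl | rfl | rfl | rfl <;> rcases hb with rfl | rfl | rfl | rfl | rfl | rfl | rfl | rfl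
  · exact absurd (congrFun (congrFun h 0) 1) (show ¬ (fZ0 0 1 + fZ0 0 1 = fW1 0 1 + fW2 0 1) by decide)
  · exact absurd (congrFun (congrFun h 0) 1) (show ¬ (fZ0 0 1 + fZ1 0 1 = fW1 0 1 + fW2 0 1) by decide)
  · exact absurd (congrFun (congrFun h 0) 1) (show ¬ (fZ0 0 1 + fU0 0 1 = fW1 0 1 + fW2 0 1) by decide)
  · exact absurd (congrFun (congrFun h 0) 1) (show ¬ (fZ0 0 1 + fU1 0 1 = fW1 0 1 + fW2 0 1) by decide)
  · exact absurd (congrFun (congrFun h 0) 1) (show ¬ (fZ0 0 1 + fW1 0 1 = fW1 0 1 + fW2 0 1) by decide)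
  · exact absurd (congrFun (congrFun h 0) 1) (show ¬ (fZ0 0 1 + fW2 0 1 = fW1 0 1 + fW2 0 1) by decide)
  · exact absurd (congrFun (congrFun h 0) 1) (show ¬ (fZ0 0 1 + fR1 0 1 = fW1 0 1 + fW2 0 1) by decide)
  · exact absurd (congrFun (congrFun h 0) 1) (show ¬ (fZ0 0 1 + fR2 0 1 = fW1 0 1 + fW2 0 1) by decide)
  · exact absurd (congrFun (congrFun h 0) 1) (show ¬ (fZ1 0 1 + fZ0 0 1 = fW1 0 1 + fW2 0 1) by decide)
  · exact absurd (congrFun (congrFun h 0) 1) (show ¬ (fZ1 0 1 + fZ1 0 1 = fW1 0 1 + fW2 0 1) by decide)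
  · exact absurd (congrFun (congrFun h 0) 1) (show ¬ (fZ1 0 1 + fU0 0 1 = fW1 0 1 + fW2 0 1) by decide)
  · exact absurd (congrFun (congrFun h 0) 1) (show ¬ (fZ1 0 1 + fU1 0 1 = fW1 0 1 + fW2 0 1) by decide)
  · exact absurd (congrFun (congrFun h 0) 1) (show ¬ (fZ1 0 1 + fW1 0 1 = fW1 0 1 + fW2 0 1) by decide)
  · exact absurd (congrFun (congrFun h 0) 1) (show ¬ (fZ1 0 1 + fW2 0 1 = fW1 0 1 + fW2 0 1) by decide)
  · exact absurd (congrFun (congrFun h 0) 1) (show ¬ (fZ1 0 1 + fR1 0 1 = fW1 0 1 + fW2 0 1) by decide)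
  · exact absurd (congrFun (congrFun h 0) 1) (show ¬ (fZ1 0 1 + fR2 0 1 = fW1 0 1 + fW2 0 1) by decide)
  · exact absurd (congrFun (congrFun h 0) 1) (show ¬ (fU0 0 1 + fZ0 0 1 = fW1 0 1 + fW2 0 1) by decide)
  · exact absurd (congrFun (congrFun h 0) 1) (show ¬ (fU0 0 1 + fZ1 0 1 = fW1 0 1 + fW2 0 1) by decide)
  · exact absurd (congrFun (congrFun h 1) 2) (show ¬ (fU0 1 2 + fU0 1 2 = fW1 1 2 + fW2 1 2) by decide)
  · exact absurd (congrFun (congrFun h 1) 2) (show ¬ (fU0 1 2 + fU1 1 2 = fW1 1 2 + fW2 1 2) by decide)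
  · exact absurd (congrFun (congrFun h 1) 3) (show ¬ (fU0 1 3 + fW1 1 3 = fW1 1 3 + fW2 1 3) by decide)
  · exact absurd (congrFun (congrFun h 1) 2) (show ¬ (fU0 1 2 + fW2 1 2 = fW1 1 2 + fW2 1 2) by decide)
  · exact absurd (congrFun (congrFun h 2) 2) (show ¬ (fU0 2 2 + fR1 2 2 = fW1 2 2 + fW2 2 2) by decide)
  · exact Or.inr (Or.inr ⟨W1, Or.inl rfl, hL U0 W1 (by rw [twos_U0, twos_W1]; norm_num), hL R2 W1 (by rw [twos_R2, twos_W1]; norm_num)⟩)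
  · exact absurd (congrFun (congrFun h 0) 1) (show ¬ (fU1 0 1 + fZ0 0 1 = fW1 0 1 + fW2 0 1) by decide)
  · exact absurd (congrFun (congrFun h 0) 1) (show ¬ (fU1 0 1 + fZ1 0 1 = fW1 0 1 + fW2 0 1) by decide)
  · exact absurd (congrFun (congrFun h 1) 2) (show ¬ (fU1 1 2 + fU0 1 2 = fW1 1 2 + fW2 1 2) by decide)
  · exact absurd (congrFun (congrFun h 1) 2) (show ¬ (fU1 1 2 + fU1 1 2 = fW1 1 2 + fW2 1 2) by decide)
  · exact absurd (congrFun (congrFun h 1) 3) (show ¬ (fU1 1 3 + fW1 1 3 = fW1 1 3 + fW2 1 3) by decide)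
  · exact absurd (congrFun (congrFun h 1) 2) (show ¬ (fU1 1 2 + fW2 1 2 = fW1 1 2 + fW2 1 2) by decide)
  · exact Or.inr (Or.inr ⟨W1, Or.inl rfl, hL U1 W1 (by rw [twos_U1, twos_W1]; norm_num), hL R1 W1 (by rw [twos_R1, twos_W1]; norm_num)⟩)
  · exact absurd (congrFun (congrFun h 2) 2) (show ¬ (fU1 2 2 + fR2 2 2 = fW1 2 2 + fW2 2 2) by decide)
  · exact absurd (congrFun (congrFun h 0) 1) (show ¬ (fW1 0 1 + fZ0 0 1 = fW1 0 1 + fW2 0 1) by decide)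
  · exact absurd (congrFun (congrFun h 0) 1) (show ¬ (fW1 0 1 + fZ1 0 1 = fW1 0 1 + fW2 0 1) by decide)
  · exact absurd (congrFun (congrFun h 1) 3) (show ¬ (fW1 1 3 + fU0 1 3 = fW1 1 3 + fW2 1 3) by decide)
  · exact absurd (congrFun (congrFun h 1) 3) (show ¬ (fW1 1 3 + fU1 1 3 = fW1 1 3 + fW2 1 3) by decide)
  · exact absurd (congrFun (congrFun h 1) 2) (show ¬ (fW1 1 2 + fW1 1 2 = fW1 1 2 + fW2 1 2) by decide)
  · exact Or.inl ⟨rfl, rfl⟩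
  · exact absurd (congrFun (congrFun h 1) 2) (show ¬ (fW1 1 2 + fR1 1 2 = fW1 1 2 + fW2 1 2) by decide)
  · exact absurd (congrFun (congrFun h 1) 2) (show ¬ (fW1 1 2 + fR2 1 2 = fW1 1 2 + fW2 1 2) by decide)
  · exact absurd (congrFun (congrFun h 0) 1) (show ¬ (fW2 0 1 + fZ0 0 1 = fW1 0 1 + fW2 0 1) by decide)
  · exact absurd (congrFun (congrFun h 0) 1) (show ¬ (fW2 0 1 + fZ1 0 1 = fW1 0 1 + fW2 0 1) by decide)
  · exact absurd (congrFun (congrFun h 1) 2) (show ¬ (fW2 1 2 + fU0 1 2 = fW1 1 2 + fW2 1 2) by decide)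
  · exact absurd (congrFun (congrFun h 1) 2) (show ¬ (fW2 1 2 + fU1 1 2 = fW1 1 2 + fW2 1 2) by decide)
  · exact Or.inr (Or.inl ⟨rfl, rfl⟩)
  · exact absurd (congrFun (congrFun h 1) 2) (show ¬ (fW2 1 2 + fW2 1 2 = fW1 1 2 + fW2 1 2) by decide)
  · exact absurd (congrFun (congrFun h 1) 3) (show ¬ (fW2 1 3 + fR1 1 3 = fW1 1 3 + fW2 1 3) by decide)
  · exact absurd (congrFun (congrFun h 1) 3) (show ¬ (fW2 1 3 + fR2 1 3 = fW1 1 3 + fW2 1 3) by decide)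
  · exact absurd (congrFun (congrFun h 0) 1) (show ¬ (fR1 0 1 + fZ0 0 1 = fW1 0 1 + fW2 0 1) by decide)
  · exact absurd (congrFun (congrFun h 0) 1) (show ¬ (fR1 0 1 + fZ1 0 1 = fW1 0 1 + fW2 0 1) by decide)
  · exact absurd (congrFun (congrFun h 2) 2) (show ¬ (fR1 2 2 + fU0 2 2 = fW1 2 2 + fW2 2 2) by decide)
  · exact Or.inr (Or.inr ⟨W1, Or.inl rfl, hL R1 W1 (by rw [twos_R1, twos_W1]; norm_num), hL U1 W1 (by rw [twos_U1, twos_W1]; norm_num)⟩)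
  · exact absurd (congrFun (congrFun h 1) 2) (show ¬ (fR1 1 2 + fW1 1 2 = fW1 1 2 + fW2 1 2) by decide)
  · exact absurd (congrFun (congrFun h 1) 3) (show ¬ (fR1 1 3 + fW2 1 3 = fW1 1 3 + fW2 1 3) by decide)
  · exact absurd (congrFun (congrFun h 1) 2) (show ¬ (fR1 1 2 + fR1 1 2 = fW1 1 2 + fW2 1 2) by decide)
  · exact absurd (congrFun (congrFun h 1) 2) (show ¬ (fR1 1 2 + fR2 1 2 = fW1 1 2 + fW2 1 2) by decide)
  · exact absurd (congrFun (congrFun h 0) 1) (show ¬ (fR2 0 1 + fZ0 0 1 = fW1 0 1 + fW2 0 1) by decide)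
  · exact absurd (congrFun (congrFun h 0) 1) (show ¬ (fR2 0 1 + fZ1 0 1 = fW1 0 1 + fW2 0 1) by decide)
  · exact Or.inr (Or.inr ⟨W1, Or.inl rfl, hL R2 W1 (by rw [twos_R2, twos_W1]; norm_num), hL U0 W1 (by rw [twos_U0, twos_W1]; norm_num)⟩)
  · exact absurd (congrFun (congrFun h 2) 2) (show ¬ (fR2 2 2 + fU1 2 2 = fW1 2 2 + fW2 2 2) by decide)
  · exact absurd (congrFun (congrFun h 1) 2) (show ¬ (fR2 1 2 + fW1 1 2 = fW1 1 2 + fW2 1 2) by decide)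
  · exact absurd (congrFun (congrFun h 1) 3) (show ¬ (fR2 1 3 + fW2 1 3 = fW1 1 3 + fW2 1 3) by decide)
  · exact absurd (congrFun (congrFun h 1) 2) (show ¬ (fR2 1 2 + fR1 1 2 = fW1 1 2 + fW2 1 2) by decide)
  · exact absurd (congrFun (congrFun h 1) 2) (show ¬ (fR2 1 2 + fR2 1 2 = fW1 1 2 + fW2 1 2) by decide)

theorem std_W1_Z0 (L : LinearOrder (LP 6)) (hL : ∀ M N : LP 6, twos N < twos M → L.lt N M) :
    IsStd (expo 6) (grevlex L) (pair W1 Z0) := by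
  apply isStd_pair
  intro a b h
  have hA : ∀ i j, fW1 i j + fZ0 i j ≤ fA2 i j := by decide +kernel
  have ha := classify2 a (le_left (A := A2) h hA)
  have hb := classify2 b (le_right (A := A2) h hA)
  rcases ha with rfl | rfl | rfl | rfl | rfl | rfl | rfl | rfl <;> rcases hb with rfl | rfl | rfl | rfl | rfl | rfl | rfl | rfl
  · exact absurd (congrFun (congrFun h 0) 1) (show ¬ (fZ0 0 1 + fZ0 0 1 = fW1 0 1 + fZ0 0 1) by decide)
  · exact absurd (congrFun (congrFun h 0) 1) (show ¬ (fZ0 0 1 + fZ1 0 1 = fW1 0 1 + fZ0 0 1) by decide)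
  · exact absurd (congrFun (congrFun h 1) 2) (show ¬ (fZ0 1 2 + fU0 1 2 = fW1 1 2 + fZ0 1 2) by decide)
  · exact absurd (congrFun (congrFun h 1) 2) (show ¬ (fZ0 1 2 + fU1 1 2 = fW1 1 2 + fZ0 1 2) by decide)
  · exact Or.inr (Or.inl ⟨rfl, rfl⟩)
  · exact absurd (congrFun (congrFun h 1) 2) (show ¬ (fZ0 1 2 + fW2 1 2 = fW1 1 2 + fZ0 1 2) by decide)
  · exact absurd (congrFun (congrFun h 1) 3) (show ¬ (fZ0 1 3 + fR1 1 3 = fW1 1 3 + fZ0 1 3) by decide)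
  · exact absurd (congrFun (congrFun h 1) 3) (show ¬ (fZ0 1 3 + fR2 1 3 = fW1 1 3 + fZ0 1 3) by decide)
  · exact absurd (congrFun (congrFun h 0) 1) (show ¬ (fZ1 0 1 + fZ0 0 1 = fW1 0 1 + fZ0 0 1) by decide)
  · exact absurd (congrFun (congrFun h 0) 1) (show ¬ (fZ1 0 1 + fZ1 0 1 = fW1 0 1 + fZ0 0 1) by decide)
  · exact absurd (congrFun (congrFun h 1) 2) (show ¬ (fZ1 1 2 + fU0 1 2 = fW1 1 2 + fZ0 1 2) by decide)
  · exact absurd (congrFun (congrFun h 1) 2) (show ¬ (fZ1 1 2 + fU1 1 2 = fW1 1 2 + fZ0 1 2) by decide)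
  · exact absurd (congrFun (congrFun h 2) 2) (show ¬ (fZ1 2 2 + fW1 2 2 = fW1 2 2 + fZ0 2 2) by decide)
  · exact absurd (congrFun (congrFun h 1) 2) (show ¬ (fZ1 1 2 + fW2 1 2 = fW1 1 2 + fZ0 1 2) by decide)
  · exact absurd (congrFun (congrFun h 1) 3) (show ¬ (fZ1 1 3 + fR1 1 3 = fW1 1 3 + fZ0 1 3) by decide)
  · exact absurd (congrFun (congrFun h 1) 3) (show ¬ (fZ1 1 3 + fR2 1 3 = fW1 1 3 + fZ0 1 3) by decide)
  · exact absurd (congrFun (congrFun h 1) 2) (show ¬ (fU0 1 2 + fZ0 1 2 = fW1 1 2 + fZ0 1 2) by decide)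
  · exact absurd (congrFun (congrFun h 1) 2) (show ¬ (fU0 1 2 + fZ1 1 2 = fW1 1 2 + fZ0 1 2) by decide)
  · exact absurd (congrFun (congrFun h 0) 1) (show ¬ (fU0 0 1 + fU0 0 1 = fW1 0 1 + fZ0 0 1) by decide)
  · exact absurd (congrFun (congrFun h 0) 1) (show ¬ (fU0 0 1 + fU1 0 1 = fW1 0 1 + fZ0 0 1) by decide)
  · exact absurd (congrFun (congrFun h 0) 1) (show ¬ (fU0 0 1 + fW1 0 1 = fW1 0 1 + fZ0 0 1) by decide)
  · exact absurd (congrFun (congrFun h 0) 1) (show ¬ (fU0 0 1 + fW2 0 1 = fW1 0 1 + fZ0 0 1) by decide)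
  · exact absurd (congrFun (congrFun h 0) 1) (show ¬ (fU0 0 1 + fR1 0 1 = fW1 0 1 + fZ0 0 1) by decide)
  · exact absurd (congrFun (congrFun h 0) 1) (show ¬ (fU0 0 1 + fR2 0 1 = fW1 0 1 + fZ0 0 1) by decide)
  · exact absurd (congrFun (congrFun h 1) 2) (show ¬ (fU1 1 2 + fZ0 1 2 = fW1 1 2 + fZ0 1 2) by decide)
  · exact absurd (congrFun (congrFun h 1) 2) (show ¬ (fU1 1 2 + fZ1 1 2 = fW1 1 2 + fZ0 1 2) by decide)
  · exact absurd (congrFun (congrFun h 0) 1) (show ¬ (fU1 0 1 + fU0 0 1 = fW1 0 1 + fZ0 0 1) by decide)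
  · exact absurd (congrFun (congrFun h 0) 1) (show ¬ (fU1 0 1 + fU1 0 1 = fW1 0 1 + fZ0 0 1) by decide)
  · exact absurd (congrFun (congrFun h 0) 1) (show ¬ (fU1 0 1 + fW1 0 1 = fW1 0 1 + fZ0 0 1) by decide)
  · exact absurd (congrFun (congrFun h 0) 1) (show ¬ (fU1 0 1 + fW2 0 1 = fW1 0 1 + fZ0 0 1) by decide)
  · exact absurd (congrFun (congrFun h 0) 1) (show ¬ (fU1 0 1 + fR1 0 1 = fW1 0 1 + fZ0 0 1) by decide)
  · exact absurd (congrFun (congrFun h 0) 1) (show ¬ (fU1 0 1 + fR2 0 1 = fW1 0 1 + fZ0 0 1) by decide)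
  · exact Or.inl ⟨rfl, rfl⟩
  · exact absurd (congrFun (congrFun h 2) 2) (show ¬ (fW1 2 2 + fZ1 2 2 = fW1 2 2 + fZ0 2 2) by decide)
  · exact absurd (congrFun (congrFun h 0) 1) (show ¬ (fW1 0 1 + fU0 0 1 = fW1 0 1 + fZ0 0 1) by decide)
  · exact absurd (congrFun (congrFun h 0) 1) (show ¬ (fW1 0 1 + fU1 0 1 = fW1 0 1 + fZ0 0 1) by decide)
  · exact absurd (congrFun (congrFun h 0) 1) (show ¬ (fW1 0 1 + fW1 0 1 = fW1 0 1 + fZ0 0 1) by decide)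
  · exact absurd (congrFun (congrFun h 0) 1) (show ¬ (fW1 0 1 + fW2 0 1 = fW1 0 1 + fZ0 0 1) by decide)
  · exact absurd (congrFun (congrFun h 0) 1) (show ¬ (fW1 0 1 + fR1 0 1 = fW1 0 1 + fZ0 0 1) by decide)
  · exact absurd (congrFun (congrFun h 0) 1) (show ¬ (fW1 0 1 + fR2 0 1 = fW1 0 1 + fZ0 0 1) by decide)
  · exact absurd (congrFun (congrFun h 1) 2) (show ¬ (fW2 1 2 + fZ0 1 2 = fW1 1 2 + fZ0 1 2) by decide)
  · exact absurd (congrFun (congrFun h 1) 2) (show ¬ (fW2 1 2 + fZ1 1 2 = fW1 1 2 + fZ0 1 2) by decide)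
  · exact absurd (congrFun (congrFun h 0) 1) (show ¬ (fW2 0 1 + fU0 0 1 = fW1 0 1 + fZ0 0 1) by decide)
  · exact absurd (congrFun (congrFun h 0) 1) (show ¬ (fW2 0 1 + fU1 0 1 = fW1 0 1 + fZ0 0 1) by decide)
  · exact absurd (congrFun (congrFun h 0) 1) (show ¬ (fW2 0 1 + fW1 0 1 = fW1 0 1 + fZ0 0 1) by decide)
  · exact absurd (congrFun (congrFun h 0) 1) (show ¬ (fW2 0 1 + fW2 0 1 = fW1 0 1 + fZ0 0 1) by decide)
  · exact absurd (congrFun (congrFun h 0) 1) (show ¬ (fW2 0 1 + fR1 0 1 = fW1 0 1 + fZ0 0 1) by decide)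
  · exact absurd (congrFun (congrFun h 0) 1) (show ¬ (fW2 0 1 + fR2 0 1 = fW1 0 1 + fZ0 0 1) by decide)
  · exact absurd (congrFun (congrFun h 1) 3) (show ¬ (fR1 1 3 + fZ0 1 3 = fW1 1 3 + fZ0 1 3) by decide)
  · exact absurd (congrFun (congrFun h 1) 3) (show ¬ (fR1 1 3 + fZ1 1 3 = fW1 1 3 + fZ0 1 3) by decide)
  · exact absurd (congrFun (congrFun h 0) 1) (show ¬ (fR1 0 1 + fU0 0 1 = fW1 0 1 + fZ0 0 1) by decide)
  · exact absurd (congrFun (congrFun h 0) 1) (show ¬ (fR1 0 1 + fU1 0 1 = fW1 0 1 + fZ0 0 1) by decide)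
  · exact absurd (congrFun (congrFun h 0) 1) (show ¬ (fR1 0 1 + fW1 0 1 = fW1 0 1 + fZ0 0 1) by decide)
  · exact absurd (congrFun (congrFun h 0) 1) (show ¬ (fR1 0 1 + fW2 0 1 = fW1 0 1 + fZ0 0 1) by decide)
  · exact absurd (congrFun (congrFun h 0) 1) (show ¬ (fR1 0 1 + fR1 0 1 = fW1 0 1 + fZ0 0 1) by decide)
  · exact absurd (congrFun (congrFun h 0) 1) (show ¬ (fR1 0 1 + fR2 0 1 = fW1 0 1 + fZ0 0 1) by decide)
  · exact absurd (congrFun (congrFun h 1) 3) (show ¬ (fR2 1 3 + fZ0 1 3 = fW1 1 3 + fZ0 1 3) by decide)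
  · exact absurd (congrFun (congrFun h 1) 3) (show ¬ (fR2 1 3 + fZ1 1 3 = fW1 1 3 + fZ0 1 3) by decide)
  · exact absurd (congrFun (congrFun h 0) 1) (show ¬ (fR2 0 1 + fU0 0 1 = fW1 0 1 + fZ0 0 1) by decide)
  · exact absurd (congrFun (congrFun h 0) 1) (show ¬ (fR2 0 1 + fU1 0 1 = fW1 0 1 + fZ0 0 1) by decide)
  · exact absurd (congrFun (congrFun h 0) 1) (show ¬ (fR2 0 1 + fW1 0 1 = fW1 0 1 + fZ0 0 1) by decide)
  · exact absurd (congrFun (congrFun h 0) 1) (show ¬ (fR2 0 1 + fW2 0 1 = fW1 0 1 + fZ0 0 1) by decide)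
  · exact absurd (congrFun (congrFun h 0) 1) (show ¬ (fR2 0 1 + fR1 0 1 = fW1 0 1 + fZ0 0 1) by decide)
  · exact absurd (congrFun (congrFun h 0) 1) (show ¬ (fR2 0 1 + fR2 0 1 = fW1 0 1 + fZ0 0 1) by decide)

theorem std_W2_Z0 (L : LinearOrder (LP 6)) (hL : ∀ M N : LP 6, twos N < twos M → L.lt N M) :
    IsStd (expo 6) (grevlex L) (pair W2 Z0) := by
  apply isStd_pair
  intro a b h
  have hA : ∀ i j, fW2 i j + fZ0 i j ≤ fA2 i j := by decide +kernel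
  have ha := classify2 a (le_left (A := A2) h hA)
  have hb := classify2 b (le_right (A := A2) h hA)
  rcases ha with rfl | rfl | rfl | rfl | rfl | rfl | rfl | rfl <;> rcases hb with rfl | rfl | rfl | rfl | rfl | rfl | rfl | rfl
  · exact absurd (congrFun (congrFun h 0) 1) (show ¬ (fZ0 0 1 + fZ0 0 1 = fW2 0 1 + fZ0 0 1) by decide)
  · exact absurd (congrFun (congrFun h 0) 1) (show ¬ (fZ0 0 1 + fZ1 0 1 = fW2 0 1 + fZ0 0 1) by decide)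
  · exact absurd (congrFun (congrFun h 1) 3) (show ¬ (fZ0 1 3 + fU0 1 3 = fW2 1 3 + fZ0 1 3) by decide)
  · exact absurd (congrFun (congrFun h 1) 3) (show ¬ (fZ0 1 3 + fU1 1 3 = fW2 1 3 + fZ0 1 3) by decide)
  · exact absurd (congrFun (congrFun h 1) 2) (show ¬ (fZ0 1 2 + fW1 1 2 = fW2 1 2 + fZ0 1 2) by decide)
  · exact Or.inr (Or.inl ⟨rfl, rfl⟩)
  · exact absurd (congrFun (congrFun h 1) 2) (show ¬ (fZ0 1 2 + fR1 1 2 = fW2 1 2 + fZ0 1 2) by decide)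
  · exact absurd (congrFun (congrFun h 1) 2) (show ¬ (fZ0 1 2 + fR2 1 2 = fW2 1 2 + fZ0 1 2) by decide)
  · exact absurd (congrFun (congrFun h 0) 1) (show ¬ (fZ1 0 1 + fZ0 0 1 = fW2 0 1 + fZ0 0 1) by decide)
  · exact absurd (congrFun (congrFun h 0) 1) (show ¬ (fZ1 0 1 + fZ1 0 1 = fW2 0 1 + fZ0 0 1) by decide)
  · exact absurd (congrFun (congrFun h 1) 3) (show ¬ (fZ1 1 3 + fU0 1 3 = fW2 1 3 + fZ0 1 3) by decide)
  · exact absurd (congrFun (congrFun h 1) 3) (show ¬ (fZ1 1 3 + fU1 1 3 = fW2 1 3 + fZ0 1 3) by decide)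
  · exact absurd (congrFun (congrFun h 1) 2) (show ¬ (fZ1 1 2 + fW1 1 2 = fW2 1 2 + fZ0 1 2) by decide)
  · exact absurd (congrFun (congrFun h 2) 2) (show ¬ (fZ1 2 2 + fW2 2 2 = fW2 2 2 + fZ0 2 2) by decide)
  · exact absurd (congrFun (congrFun h 1) 2) (show ¬ (fZ1 1 2 + fR1 1 2 = fW2 1 2 + fZ0 1 2) by decide)
  · exact absurd (congrFun (congrFun h 1) 2) (show ¬ (fZ1 1 2 + fR2 1 2 = fW2 1 2 + fZ0 1 2) by decide)
  · exact absurd (congrFun (congrFun h 1) 3) (show ¬ (fU0 1 3 + fZ0 1 3 = fW2 1 3 + fZ0 1 3) by decide)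
  · exact absurd (congrFun (congrFun h 1) 3) (show ¬ (fU0 1 3 + fZ1 1 3 = fW2 1 3 + fZ0 1 3) by decide)
  · exact absurd (congrFun (congrFun h 0) 1) (show ¬ (fU0 0 1 + fU0 0 1 = fW2 0 1 + fZ0 0 1) by decide)
  · exact absurd (congrFun (congrFun h 0) 1) (show ¬ (fU0 0 1 + fU1 0 1 = fW2 0 1 + fZ0 0 1) by decide)
  · exact absurd (congrFun (congrFun h 0) 1) (show ¬ (fU0 0 1 + fW1 0 1 = fW2 0 1 + fZ0 0 1) by decide)
  · exact absurd (congrFun (congrFun h 0) 1) (show ¬ (fU0 0 1 + fW2 0 1 = fW2 0 1 + fZ0 0 1) by decide)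
  · exact absurd (congrFun (congrFun h 0) 1) (show ¬ (fU0 0 1 + fR1 0 1 = fW2 0 1 + fZ0 0 1) by decide)
  · exact absurd (congrFun (congrFun h 0) 1) (show ¬ (fU0 0 1 + fR2 0 1 = fW2 0 1 + fZ0 0 1) by decide)
  · exact absurd (congrFun (congrFun h 1) 3) (show ¬ (fU1 1 3 + fZ0 1 3 = fW2 1 3 + fZ0 1 3) by decide)
  · exact absurd (congrFun (congrFun h 1) 3) (show ¬ (fU1 1 3 + fZ1 1 3 = fW2 1 3 + fZ0 1 3) by decide)
  · exact absurd (congrFun (congrFun h 0) 1) (show ¬ (fU1 0 1 + fU0 0 1 = fW2 0 1 + fZ0 0 1) by decide)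
  · exact absurd (congrFun (congrFun h 0) 1) (show ¬ (fU1 0 1 + fU1 0 1 = fW2 0 1 + fZ0 0 1) by decide)
  · exact absurd (congrFun (congrFun h 0) 1) (show ¬ (fU1 0 1 + fW1 0 1 = fW2 0 1 + fZ0 0 1) by decide)
  · exact absurd (congrFun (congrFun h 0) 1) (show ¬ (fU1 0 1 + fW2 0 1 = fW2 0 1 + fZ0 0 1) by decide)
  · exact absurd (congrFun (congrFun h 0) 1) (show ¬ (fU1 0 1 + fR1 0 1 = fW2 0 1 + fZ0 0 1) by decide)
  · exact absurd (congrFun (congrFun h 0) 1) (show ¬ (fU1 0 1 + fR2 0 1 = fW2 0 1 + fZ0 0 1) by decide)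
  · exact absurd (congrFun (congrFun h 1) 2) (show ¬ (fW1 1 2 + fZ0 1 2 = fW2 1 2 + fZ0 1 2) by decide)
  · exact absurd (congrFun (congrFun h 1) 2) (show ¬ (fW1 1 2 + fZ1 1 2 = fW2 1 2 + fZ0 1 2) by decide)
  · exact absurd (congrFun (congrFun h 0) 1) (show ¬ (fW1 0 1 + fU0 0 1 = fW2 0 1 + fZ0 0 1) by decide)
  · exact absurd (congrFun (congrFun h 0) 1) (show ¬ (fW1 0 1 + fU1 0 1 = fW2 0 1 + fZ0 0 1) by decide)
  · exact absurd (congrFun (congrFun h 0) 1) (show ¬ (fW1 0 1 + fW1 0 1 = fW2 0 1 + fZ0 0 1) by decide)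
  · exact absurd (congrFun (congrFun h 0) 1) (show ¬ (fW1 0 1 + fW2 0 1 = fW2 0 1 + fZ0 0 1) by decide)
  · exact absurd (congrFun (congrFun h 0) 1) (show ¬ (fW1 0 1 + fR1 0 1 = fW2 0 1 + fZ0 0 1) by decide)
  · exact absurd (congrFun (congrFun h 0) 1) (show ¬ (fW1 0 1 + fR2 0 1 = fW2 0 1 + fZ0 0 1) by decide)
  · exact Or.inl ⟨rfl, rfl⟩
  · exact absurd (congrFun (congrFun h 2) 2) (show ¬ (fW2 2 2 + fZ1 2 2 = fW2 2 2 + fZ0 2 2) by decide)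
  · exact absurd (congrFun (congrFun h 0) 1) (show ¬ (fW2 0 1 + fU0 0 1 = fW2 0 1 + fZ0 0 1) by decide)
  · exact absurd (congrFun (congrFun h 0) 1) (show ¬ (fW2 0 1 + fU1 0 1 = fW2 0 1 + fZ0 0 1) by decide)
  · exact absurd (congrFun (congrFun h 0) 1) (show ¬ (fW2 0 1 + fW1 0 1 = fW2 0 1 + fZ0 0 1) by decide)
  · exact absurd (congrFun (congrFun h 0) 1) (show ¬ (fW2 0 1 + fW2 0 1 = fW2 0 1 + fZ0 0 1) by decide)
  · exact absurd (congrFun (congrFun h 0) 1) (show ¬ (fW2 0 1 + fR1 0 1 = fW2 0 1 + fZ0 0 1) by decide)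
  · exact absurd (congrFun (congrFun h 0) 1) (show ¬ (fW2 0 1 + fR2 0 1 = fW2 0 1 + fZ0 0 1) by decide)
  · exact absurd (congrFun (congrFun h 1) 2) (show ¬ (fR1 1 2 + fZ0 1 2 = fW2 1 2 + fZ0 1 2) by decide)
  · exact absurd (congrFun (congrFun h 1) 2) (show ¬ (fR1 1 2 + fZ1 1 2 = fW2 1 2 + fZ0 1 2) by decide)
  · exact absurd (congrFun (congrFun h 0) 1) (show ¬ (fR1 0 1 + fU0 0 1 = fW2 0 1 + fZ0 0 1) by decide)
  · exact absurd (congrFun (congrFun h 0) 1) (show ¬ (fR1 0 1 + fU1 0 1 = fW2 0 1 + fZ0 0 1) by decide)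
  · exact absurd (congrFun (congrFun h 0) 1) (show ¬ (fR1 0 1 + fW1 0 1 = fW2 0 1 + fZ0 0 1) by decide)
  · exact absurd (congrFun (congrFun h 0) 1) (show ¬ (fR1 0 1 + fW2 0 1 = fW2 0 1 + fZ0 0 1) by decide)
  · exact absurd (congrFun (congrFun h 0) 1) (show ¬ (fR1 0 1 + fR1 0 1 = fW2 0 1 + fZ0 0 1) by decide)
  · exact absurd (congrFun (congrFun h 0) 1) (show ¬ (fR1 0 1 + fR2 0 1 = fW2 0 1 + fZ0 0 1) by decide)
  · exact absurd (congrFun (congrFun h 1) 2) (show ¬ (fR2 1 2 + fZ0 1 2 = fW2 1 2 + fZ0 1 2) by decide)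
  · exact absurd (congrFun (congrFun h 1) 2) (show ¬ (fR2 1 2 + fZ1 1 2 = fW2 1 2 + fZ0 1 2) by decide)
  · exact absurd (congrFun (congrFun h 0) 1) (show ¬ (fR2 0 1 + fU0 0 1 = fW2 0 1 + fZ0 0 1) by decide)
  · exact absurd (congrFun (congrFun h 0) 1) (show ¬ (fR2 0 1 + fU1 0 1 = fW2 0 1 + fZ0 0 1) by decide)
  · exact absurd (congrFun (congrFun h 0) 1) (show ¬ (fR2 0 1 + fW1 0 1 = fW2 0 1 + fZ0 0 1) by decide)
  · exact absurd (congrFun (congrFun h 0) 1) (show ¬ (fR2 0 1 + fW2 0 1 = fW2 0 1 + fZ0 0 1) by decide)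
  · exact absurd (congrFun (congrFun h 0) 1) (show ¬ (fR2 0 1 + fR1 0 1 = fW2 0 1 + fZ0 0 1) by decide)
  · exact absurd (congrFun (congrFun h 0) 1) (show ¬ (fR2 0 1 + fR2 0 1 = fW2 0 1 + fZ0 0 1) by decide)

theorem std_U0_R1 (L : LinearOrder (LP 6)) (hL : ∀ M N : LP 6, twos N < twos M → L.lt N M) :
    IsStd (expo 6) (grevlex L) (pair U0 R1) := by
  apply isStd_pair
  intro a b h
  have hA : ∀ i j, fU0 i j + fR1 i j ≤ fA2 i j := by decide +kernel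
  have ha := classify2 a (le_left (A := A2) h hA)
  have hb := classify2 b (le_right (A := A2) h hA)
  rcases ha with rfl | rfl | rfl | rfl | rfl | rfl | rfl | rfl <;> rcases hb with rfl | rfl | rfl | rfl | rfl | rfl | rfl | rfl
  · exact absurd (congrFun (congrFun h 0) 1) (show ¬ (fZ0 0 1 + fZ0 0 1 = fU0 0 1 + fR1 0 1) by decide)
  · exact absurd (congrFun (congrFun h 0) 1) (show ¬ (fZ0 0 1 + fZ1 0 1 = fU0 0 1 + fR1 0 1) by decide)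
  · exact absurd (congrFun (congrFun h 0) 1) (show ¬ (fZ0 0 1 + fU0 0 1 = fU0 0 1 + fR1 0 1) by decide)
  · exact absurd (congrFun (congrFun h 0) 1) (show ¬ (fZ0 0 1 + fU1 0 1 = fU0 0 1 + fR1 0 1) by decide)
  · exact absurd (congrFun (congrFun h 0) 1) (show ¬ (fZ0 0 1 + fW1 0 1 = fU0 0 1 + fR1 0 1) by decide)
  · exact absurd (congrFun (congrFun h 0) 1) (show ¬ (fZ0 0 1 + fW2 0 1 = fU0 0 1 + fR1 0 1) by decide)
  · exact absurd (congrFun (congrFun h 0) 1) (show ¬ (fZ0 0 1 + fR1 0 1 = fU0 0 1 + fR1 0 1) by decide)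
  · exact absurd (congrFun (congrFun h 0) 1) (show ¬ (fZ0 0 1 + fR2 0 1 = fU0 0 1 + fR1 0 1) by decide)
  · exact absurd (congrFun (congrFun h 0) 1) (show ¬ (fZ1 0 1 + fZ0 0 1 = fU0 0 1 + fR1 0 1) by decide)
  · exact absurd (congrFun (congrFun h 0) 1) (show ¬ (fZ1 0 1 + fZ1 0 1 = fU0 0 1 + fR1 0 1) by decide)
  · exact absurd (congrFun (congrFun h 0) 1) (show ¬ (fZ1 0 1 + fU0 0 1 = fU0 0 1 + fR1 0 1) by decide)
  · exact absurd (congrFun (congrFun h 0) 1) (show ¬ (fZ1 0 1 + fU1 0 1 = fU0 0 1 + fR1 0 1) by decide)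
  · exact absurd (congrFun (congrFun h 0) 1) (show ¬ (fZ1 0 1 + fW1 0 1 = fU0 0 1 + fR1 0 1) by decide)
  · exact absurd (congrFun (congrFun h 0) 1) (show ¬ (fZ1 0 1 + fW2 0 1 = fU0 0 1 + fR1 0 1) by decide)
  · exact absurd (congrFun (congrFun h 0) 1) (show ¬ (fZ1 0 1 + fR1 0 1 = fU0 0 1 + fR1 0 1) by decide)
  · exact absurd (congrFun (congrFun h 0) 1) (show ¬ (fZ1 0 1 + fR2 0 1 = fU0 0 1 + fR1 0 1) by decide)
  · exact absurd (congrFun (congrFun h 0) 1) (show ¬ (fU0 0 1 + fZ0 0 1 = fU0 0 1 + fR1 0 1) by decide)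
  · exact absurd (congrFun (congrFun h 0) 1) (show ¬ (fU0 0 1 + fZ1 0 1 = fU0 0 1 + fR1 0 1) by decide)
  · exact absurd (congrFun (congrFun h 1) 2) (show ¬ (fU0 1 2 + fU0 1 2 = fU0 1 2 + fR1 1 2) by decide)
  · exact absurd (congrFun (congrFun h 1) 2) (show ¬ (fU0 1 2 + fU1 1 2 = fU0 1 2 + fR1 1 2) by decide)
  · exact absurd (congrFun (congrFun h 1) 3) (show ¬ (fU0 1 3 + fW1 1 3 = fU0 1 3 + fR1 1 3) by decide)
  · exact absurd (congrFun (congrFun h 1) 2) (show ¬ (fU0 1 2 + fW2 1 2 = fU0 1 2 + fR1 1 2) by decide)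
  · exact Or.inl ⟨rfl, rfl⟩
  · exact absurd (congrFun (congrFun h 2) 2) (show ¬ (fU0 2 2 + fR2 2 2 = fU0 2 2 + fR1 2 2) by decide)
  · exact absurd (congrFun (congrFun h 0) 1) (show ¬ (fU1 0 1 + fZ0 0 1 = fU0 0 1 + fR1 0 1) by decide)
  · exact absurd (congrFun (congrFun h 0) 1) (show ¬ (fU1 0 1 + fZ1 0 1 = fU0 0 1 + fR1 0 1) by decide)
  · exact absurd (congrFun (congrFun h 1) 2) (show ¬ (fU1 1 2 + fU0 1 2 = fU0 1 2 + fR1 1 2) by decide)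
  · exact absurd (congrFun (congrFun h 1) 2) (show ¬ (fU1 1 2 + fU1 1 2 = fU0 1 2 + fR1 1 2) by decide)
  · exact absurd (congrFun (congrFun h 1) 3) (show ¬ (fU1 1 3 + fW1 1 3 = fU0 1 3 + fR1 1 3) by decide)
  · exact absurd (congrFun (congrFun h 1) 2) (show ¬ (fU1 1 2 + fW2 1 2 = fU0 1 2 + fR1 1 2) by decide)
  · exact absurd (congrFun (congrFun h 2) 2) (show ¬ (fU1 2 2 + fR1 2 2 = fU0 2 2 + fR1 2 2) by decide)
  · exact absurd (congrFun (congrFun h 2) 2) (show ¬ (fU1 2 2 + fR2 2 2 = fU0 2 2 + fR1 2 2) by decide)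
  · exact absurd (congrFun (congrFun h 0) 1) (show ¬ (fW1 0 1 + fZ0 0 1 = fU0 0 1 + fR1 0 1) by decide)
  · exact absurd (congrFun (congrFun h 0) 1) (show ¬ (fW1 0 1 + fZ1 0 1 = fU0 0 1 + fR1 0 1) by decide)
  · exact absurd (congrFun (congrFun h 1) 3) (show ¬ (fW1 1 3 + fU0 1 3 = fU0 1 3 + fR1 1 3) by decide)
  · exact absurd (congrFun (congrFun h 1) 3) (show ¬ (fW1 1 3 + fU1 1 3 = fU0 1 3 + fR1 1 3) by decide)
  · exact absurd (congrFun (congrFun h 1) 2) (show ¬ (fW1 1 2 + fW1 1 2 = fU0 1 2 + fR1 1 2) by decide)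
  · exact absurd (congrFun (congrFun h 2) 2) (show ¬ (fW1 2 2 + fW2 2 2 = fU0 2 2 + fR1 2 2) by decide)
  · exact absurd (congrFun (congrFun h 1) 2) (show ¬ (fW1 1 2 + fR1 1 2 = fU0 1 2 + fR1 1 2) by decide)
  · exact absurd (congrFun (congrFun h 1) 2) (show ¬ (fW1 1 2 + fR2 1 2 = fU0 1 2 + fR1 1 2) by decide)
  · exact absurd (congrFun (congrFun h 0) 1) (show ¬ (fW2 0 1 + fZ0 0 1 = fU0 0 1 + fR1 0 1) by decide)
  · exact absurd (congrFun (congrFun h 0) 1) (show ¬ (fW2 0 1 + fZ1 0 1 = fU0 0 1 + fR1 0 1) by decide)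
  · exact absurd (congrFun (congrFun h 1) 2) (show ¬ (fW2 1 2 + fU0 1 2 = fU0 1 2 + fR1 1 2) by decide)
  · exact absurd (congrFun (congrFun h 1) 2) (show ¬ (fW2 1 2 + fU1 1 2 = fU0 1 2 + fR1 1 2) by decide)
  · exact absurd (congrFun (congrFun h 2) 2) (show ¬ (fW2 2 2 + fW1 2 2 = fU0 2 2 + fR1 2 2) by decide)
  · exact absurd (congrFun (congrFun h 1) 2) (show ¬ (fW2 1 2 + fW2 1 2 = fU0 1 2 + fR1 1 2) by decide)
  · exact absurd (congrFun (congrFun h 1) 3) (show ¬ (fW2 1 3 + fR1 1 3 = fU0 1 3 + fR1 1 3) by decide)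
  · exact absurd (congrFun (congrFun h 1) 3) (show ¬ (fW2 1 3 + fR2 1 3 = fU0 1 3 + fR1 1 3) by decide)
  · exact absurd (congrFun (congrFun h 0) 1) (show ¬ (fR1 0 1 + fZ0 0 1 = fU0 0 1 + fR1 0 1) by decide)
  · exact absurd (congrFun (congrFun h 0) 1) (show ¬ (fR1 0 1 + fZ1 0 1 = fU0 0 1 + fR1 0 1) by decide)
  · exact Or.inr (Or.inl ⟨rfl, rfl⟩)
  · exact absurd (congrFun (congrFun h 2) 2) (show ¬ (fR1 2 2 + fU1 2 2 = fU0 2 2 + fR1 2 2) by decide)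
  · exact absurd (congrFun (congrFun h 1) 2) (show ¬ (fR1 1 2 + fW1 1 2 = fU0 1 2 + fR1 1 2) by decide)
  · exact absurd (congrFun (congrFun h 1) 3) (show ¬ (fR1 1 3 + fW2 1 3 = fU0 1 3 + fR1 1 3) by decide)
  · exact absurd (congrFun (congrFun h 1) 2) (show ¬ (fR1 1 2 + fR1 1 2 = fU0 1 2 + fR1 1 2) by decide)
  · exact absurd (congrFun (congrFun h 1) 2) (show ¬ (fR1 1 2 + fR2 1 2 = fU0 1 2 + fR1 1 2) by decide)
  · exact absurd (congrFun (congrFun h 0) 1) (show ¬ (fR2 0 1 + fZ0 0 1 = fU0 0 1 + fR1 0 1) by decide)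
  · exact absurd (congrFun (congrFun h 0) 1) (show ¬ (fR2 0 1 + fZ1 0 1 = fU0 0 1 + fR1 0 1) by decide)
  · exact absurd (congrFun (congrFun h 2) 2) (show ¬ (fR2 2 2 + fU0 2 2 = fU0 2 2 + fR1 2 2) by decide)
  · exact absurd (congrFun (congrFun h 2) 2) (show ¬ (fR2 2 2 + fU1 2 2 = fU0 2 2 + fR1 2 2) by decide)
  · exact absurd (congrFun (congrFun h 1) 2) (show ¬ (fR2 1 2 + fW1 1 2 = fU0 1 2 + fR1 1 2) by decide)
  · exact absurd (congrFun (congrFun h 1) 3) (show ¬ (fR2 1 3 + fW2 1 3 = fU0 1 3 + fR1 1 3) by decide)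
  · exact absurd (congrFun (congrFun h 1) 2) (show ¬ (fR2 1 2 + fR1 1 2 = fU0 1 2 + fR1 1 2) by decide)
  · exact absurd (congrFun (congrFun h 1) 2) (show ¬ (fR2 1 2 + fR2 1 2 = fU0 1 2 + fR1 1 2) by decide)

theorem std_U0_Z1 (L : LinearOrder (LP 6)) (hL : ∀ M N : LP 6, twos N < twos M → L.lt N M) :
    IsStd (expo 6) (grevlex L) (pair U0 Z1) := by
  apply isStd_pair
  intro a b h
  have hA : ∀ i j, fU0 i j + fZ1 i j ≤ fA2 i j := by decide +kernel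
  have ha := classify2 a (le_left (A := A2) h hA)
  have hb := classify2 b (le_right (A := A2) h hA)
  rcases ha with rfl | rfl | rfl | rfl | rfl | rfl | rfl | rfl <;> rcases hb with rfl | rfl | rfl | rfl | rfl | rfl | rfl | rfl
  · exact absurd (congrFun (congrFun h 0) 1) (show ¬ (fZ0 0 1 + fZ0 0 1 = fU0 0 1 + fZ1 0 1) by decide)
  · exact absurd (congrFun (congrFun h 0) 1) (show ¬ (fZ0 0 1 + fZ1 0 1 = fU0 0 1 + fZ1 0 1) by decide)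
  · exact absurd (congrFun (congrFun h 2) 2) (show ¬ (fZ0 2 2 + fU0 2 2 = fU0 2 2 + fZ1 2 2) by decide)
  · exact Or.inr (Or.inr ⟨Z1, Or.inr rfl, hL Z0 Z1 (by rw [twos_Z0, twos_Z1]; norm_num), hL U1 Z1 (by rw [twos_U1, twos_Z1]; norm_num)⟩)
  · exact absurd (congrFun (congrFun h 1) 2) (show ¬ (fZ0 1 2 + fW1 1 2 = fU0 1 2 + fZ1 1 2) by decide)
  · exact absurd (congrFun (congrFun h 1) 3) (show ¬ (fZ0 1 3 + fW2 1 3 = fU0 1 3 + fZ1 1 3) by decide)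
  · exact absurd (congrFun (congrFun h 1) 2) (show ¬ (fZ0 1 2 + fR1 1 2 = fU0 1 2 + fZ1 1 2) by decide)
  · exact absurd (congrFun (congrFun h 1) 2) (show ¬ (fZ0 1 2 + fR2 1 2 = fU0 1 2 + fZ1 1 2) by decide)
  · exact absurd (congrFun (congrFun h 0) 1) (show ¬ (fZ1 0 1 + fZ0 0 1 = fU0 0 1 + fZ1 0 1) by decide)
  · exact absurd (congrFun (congrFun h 0) 1) (show ¬ (fZ1 0 1 + fZ1 0 1 = fU0 0 1 + fZ1 0 1) by decide)
  · exact Or.inr (Or.inl ⟨rfl, rfl⟩)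
  · exact absurd (congrFun (congrFun h 2) 2) (show ¬ (fZ1 2 2 + fU1 2 2 = fU0 2 2 + fZ1 2 2) by decide)
  · exact absurd (congrFun (congrFun h 1) 2) (show ¬ (fZ1 1 2 + fW1 1 2 = fU0 1 2 + fZ1 1 2) by decide)
  · exact absurd (congrFun (congrFun h 1) 3) (show ¬ (fZ1 1 3 + fW2 1 3 = fU0 1 3 + fZ1 1 3) by decide)
  · exact absurd (congrFun (congrFun h 1) 2) (show ¬ (fZ1 1 2 + fR1 1 2 = fU0 1 2 + fZ1 1 2) by decide)
  · exact absurd (congrFun (congrFun h 1) 2) (show ¬ (fZ1 1 2 + fR2 1 2 = fU0 1 2 + fZ1 1 2) by decide)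
  · exact absurd (congrFun (congrFun h 2) 2) (show ¬ (fU0 2 2 + fZ0 2 2 = fU0 2 2 + fZ1 2 2) by decide)
  · exact Or.inl ⟨rfl, rfl⟩
  · exact absurd (congrFun (congrFun h 0) 1) (show ¬ (fU0 0 1 + fU0 0 1 = fU0 0 1 + fZ1 0 1) by decide)
  · exact absurd (congrFun (congrFun h 0) 1) (show ¬ (fU0 0 1 + fU1 0 1 = fU0 0 1 + fZ1 0 1) by decide)
  · exact absurd (congrFun (congrFun h 0) 1) (show ¬ (fU0 0 1 + fW1 0 1 = fU0 0 1 + fZ1 0 1) by decide)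
  · exact absurd (congrFun (congrFun h 0) 1) (show ¬ (fU0 0 1 + fW2 0 1 = fU0 0 1 + fZ1 0 1) by decide)
  · exact absurd (congrFun (congrFun h 0) 1) (show ¬ (fU0 0 1 + fR1 0 1 = fU0 0 1 + fZ1 0 1) by decide)
  · exact absurd (congrFun (congrFun h 0) 1) (show ¬ (fU0 0 1 + fR2 0 1 = fU0 0 1 + fZ1 0 1) by decide)
  · exact Or.inr (Or.inr ⟨Z1, Or.inr rfl, hL U1 Z1 (by rw [twos_U1, twos_Z1]; norm_num), hL Z0 Z1 (by rw [twos_Z0, twos_Z1]; norm_num)⟩)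
  · exact absurd (congrFun (congrFun h 2) 2) (show ¬ (fU1 2 2 + fZ1 2 2 = fU0 2 2 + fZ1 2 2) by decide)
  · exact absurd (congrFun (congrFun h 0) 1) (show ¬ (fU1 0 1 + fU0 0 1 = fU0 0 1 + fZ1 0 1) by decide)
  · exact absurd (congrFun (congrFun h 0) 1) (show ¬ (fU1 0 1 + fU1 0 1 = fU0 0 1 + fZ1 0 1) by decide)
  · exact absurd (congrFun (congrFun h 0) 1) (show ¬ (fU1 0 1 + fW1 0 1 = fU0 0 1 + fZ1 0 1) by decide)
  · exact absurd (congrFun (congrFun h 0) 1) (show ¬ (fU1 0 1 + fW2 0 1 = fU0 0 1 + fZ1 0 1) by decide)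
  · exact absurd (congrFun (congrFun h 0) 1) (show ¬ (fU1 0 1 + fR1 0 1 = fU0 0 1 + fZ1 0 1) by decide)
  · exact absurd (congrFun (congrFun h 0) 1) (show ¬ (fU1 0 1 + fR2 0 1 = fU0 0 1 + fZ1 0 1) by decide)
  · exact absurd (congrFun (congrFun h 1) 2) (show ¬ (fW1 1 2 + fZ0 1 2 = fU0 1 2 + fZ1 1 2) by decide)
  · exact absurd (congrFun (congrFun h 1) 2) (show ¬ (fW1 1 2 + fZ1 1 2 = fU0 1 2 + fZ1 1 2) by decide)
  · exact absurd (congrFun (congrFun h 0) 1) (show ¬ (fW1 0 1 + fU0 0 1 = fU0 0 1 + fZ1 0 1) by decide)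
  · exact absurd (congrFun (congrFun h 0) 1) (show ¬ (fW1 0 1 + fU1 0 1 = fU0 0 1 + fZ1 0 1) by decide)
  · exact absurd (congrFun (congrFun h 0) 1) (show ¬ (fW1 0 1 + fW1 0 1 = fU0 0 1 + fZ1 0 1) by decide)
  · exact absurd (congrFun (congrFun h 0) 1) (show ¬ (fW1 0 1 + fW2 0 1 = fU0 0 1 + fZ1 0 1) by decide)
  · exact absurd (congrFun (congrFun h 0) 1) (show ¬ (fW1 0 1 + fR1 0 1 = fU0 0 1 + fZ1 0 1) by decide)
  · exact absurd (congrFun (congrFun h 0) 1) (show ¬ (fW1 0 1 + fR2 0 1 = fU0 0 1 + fZ1 0 1) by decide)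
  · exact absurd (congrFun (congrFun h 1) 3) (show ¬ (fW2 1 3 + fZ0 1 3 = fU0 1 3 + fZ1 1 3) by decide)
  · exact absurd (congrFun (congrFun h 1) 3) (show ¬ (fW2 1 3 + fZ1 1 3 = fU0 1 3 + fZ1 1 3) by decide)
  · exact absurd (congrFun (congrFun h 0) 1) (show ¬ (fW2 0 1 + fU0 0 1 = fU0 0 1 + fZ1 0 1) by decide)
  · exact absurd (congrFun (congrFun h 0) 1) (show ¬ (fW2 0 1 + fU1 0 1 = fU0 0 1 + fZ1 0 1) by decide)
  · exact absurd (congrFun (congrFun h 0) 1) (show ¬ (fW2 0 1 + fW1 0 1 = fU0 0 1 + fZ1 0 1) by decide)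
  · exact absurd (congrFun (congrFun h 0) 1) (show ¬ (fW2 0 1 + fW2 0 1 = fU0 0 1 + fZ1 0 1) by decide)
  · exact absurd (congrFun (congrFun h 0) 1) (show ¬ (fW2 0 1 + fR1 0 1 = fU0 0 1 + fZ1 0 1) by decide)
  · exact absurd (congrFun (congrFun h 0) 1) (show ¬ (fW2 0 1 + fR2 0 1 = fU0 0 1 + fZ1 0 1) by decide)
  · exact absurd (congrFun (congrFun h 1) 2) (show ¬ (fR1 1 2 + fZ0 1 2 = fU0 1 2 + fZ1 1 2) by decide)
  · exact absurd (congrFun (congrFun h 1) 2) (show ¬ (fR1 1 2 + fZ1 1 2 = fU0 1 2 + fZ1 1 2) by decide)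
  · exact absurd (congrFun (congrFun h 0) 1) (show ¬ (fR1 0 1 + fU0 0 1 = fU0 0 1 + fZ1 0 1) by decide)
  · exact absurd (congrFun (congrFun h 0) 1) (show ¬ (fR1 0 1 + fU1 0 1 = fU0 0 1 + fZ1 0 1) by decide)
  · exact absurd (congrFun (congrFun h 0) 1) (show ¬ (fR1 0 1 + fW1 0 1 = fU0 0 1 + fZ1 0 1) by decide)
  · exact absurd (congrFun (congrFun h 0) 1) (show ¬ (fR1 0 1 + fW2 0 1 = fU0 0 1 + fZ1 0 1) by decide)
  · exact absurd (congrFun (congrFun h 0) 1) (show ¬ (fR1 0 1 + fR1 0 1 = fU0 0 1 + fZ1 0 1) by decide)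
  · exact absurd (congrFun (congrFun h 0) 1) (show ¬ (fR1 0 1 + fR2 0 1 = fU0 0 1 + fZ1 0 1) by decide)
  · exact absurd (congrFun (congrFun h 1) 2) (show ¬ (fR2 1 2 + fZ0 1 2 = fU0 1 2 + fZ1 1 2) by decide)
  · exact absurd (congrFun (congrFun h 1) 2) (show ¬ (fR2 1 2 + fZ1 1 2 = fU0 1 2 + fZ1 1 2) by decide)
  · exact absurd (congrFun (congrFun h 0) 1) (show ¬ (fR2 0 1 + fU0 0 1 = fU0 0 1 + fZ1 0 1) by decide)
  · exact absurd (congrFun (congrFun h 0) 1) (show ¬ (fR2 0 1 + fU1 0 1 = fU0 0 1 + fZ1 0 1) by decide)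
  · exact absurd (congrFun (congrFun h 0) 1) (show ¬ (fR2 0 1 + fW1 0 1 = fU0 0 1 + fZ1 0 1) by decide)
  · exact absurd (congrFun (congrFun h 0) 1) (show ¬ (fR2 0 1 + fW2 0 1 = fU0 0 1 + fZ1 0 1) by decide)
  · exact absurd (congrFun (congrFun h 0) 1) (show ¬ (fR2 0 1 + fR1 0 1 = fU0 0 1 + fZ1 0 1) by decide)
  · exact absurd (congrFun (congrFun h 0) 1) (show ¬ (fR2 0 1 + fR2 0 1 = fU0 0 1 + fZ1 0 1) by decide)

theorem std_R1_Z1 (L : LinearOrder (LP 6)) (hL : ∀ M N : LP 6, twos N < twos M → L.lt N M) :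
    IsStd (expo 6) (grevlex L) (pair R1 Z1) := by
  apply isStd_pair
  intro a b h
  have hA : ∀ i j, fR1 i j + fZ1 i j ≤ fA2 i j := by decide +kernel
  have ha := classify2 a (le_left (A := A2) h hA)
  have hb := classify2 b (le_right (A := A2) h hA)
  rcases ha with rfl | rfl | rfl | rfl | rfl | rfl | rfl | rfl <;> rcases hb with rfl | rfl | rfl | rfl | rfl | rfl | rfl | rfl
  · exact absurd (congrFun (congrFun h 0) 1) (show ¬ (fZ0 0 1 + fZ0 0 1 = fR1 0 1 + fZ1 0 1) by decide)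
  · exact absurd (congrFun (congrFun h 0) 1) (show ¬ (fZ0 0 1 + fZ1 0 1 = fR1 0 1 + fZ1 0 1) by decide)
  · exact absurd (congrFun (congrFun h 1) 2) (show ¬ (fZ0 1 2 + fU0 1 2 = fR1 1 2 + fZ1 1 2) by decide)
  · exact absurd (congrFun (congrFun h 1) 2) (show ¬ (fZ0 1 2 + fU1 1 2 = fR1 1 2 + fZ1 1 2) by decide)
  · exact absurd (congrFun (congrFun h 1) 3) (show ¬ (fZ0 1 3 + fW1 1 3 = fR1 1 3 + fZ1 1 3) by decide)
  · exact absurd (congrFun (congrFun h 1) 2) (show ¬ (fZ0 1 2 + fW2 1 2 = fR1 1 2 + fZ1 1 2) by decide)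
  · exact absurd (congrFun (congrFun h 2) 2) (show ¬ (fZ0 2 2 + fR1 2 2 = fR1 2 2 + fZ1 2 2) by decide)
  · exact Or.inr (Or.inr ⟨Z1, Or.inr rfl, hL Z0 Z1 (by rw [twos_Z0, twos_Z1]; norm_num), hL R2 Z1 (by rw [twos_R2, twos_Z1]; norm_num)⟩)
  · exact absurd (congrFun (congrFun h 0) 1) (show ¬ (fZ1 0 1 + fZ0 0 1 = fR1 0 1 + fZ1 0 1) by decide)
  · exact absurd (congrFun (congrFun h 0) 1) (show ¬ (fZ1 0 1 + fZ1 0 1 = fR1 0 1 + fZ1 0 1) by decide)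
  · exact absurd (congrFun (congrFun h 1) 2) (show ¬ (fZ1 1 2 + fU0 1 2 = fR1 1 2 + fZ1 1 2) by decide)
  · exact absurd (congrFun (congrFun h 1) 2) (show ¬ (fZ1 1 2 + fU1 1 2 = fR1 1 2 + fZ1 1 2) by decide)
  · exact absurd (congrFun (congrFun h 1) 3) (show ¬ (fZ1 1 3 + fW1 1 3 = fR1 1 3 + fZ1 1 3) by decide)
  · exact absurd (congrFun (congrFun h 1) 2) (show ¬ (fZ1 1 2 + fW2 1 2 = fR1 1 2 + fZ1 1 2) by decide)
  · exact Or.inr (Or.inl ⟨rfl, rfl⟩)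
  · exact absurd (congrFun (congrFun h 2) 2) (show ¬ (fZ1 2 2 + fR2 2 2 = fR1 2 2 + fZ1 2 2) by decide)
  · exact absurd (congrFun (congrFun h 1) 2) (show ¬ (fU0 1 2 + fZ0 1 2 = fR1 1 2 + fZ1 1 2) by decide)
  · exact absurd (congrFun (congrFun h 1) 2) (show ¬ (fU0 1 2 + fZ1 1 2 = fR1 1 2 + fZ1 1 2) by decide)
  · exact absurd (congrFun (congrFun h 0) 1) (show ¬ (fU0 0 1 + fU0 0 1 = fR1 0 1 + fZ1 0 1) by decide)
  · exact absurd (congrFun (congrFun h 0) 1) (show ¬ (fU0 0 1 + fU1 0 1 = fR1 0 1 + fZ1 0 1) by decide)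
  · exact absurd (congrFun (congrFun h 0) 1) (show ¬ (fU0 0 1 + fW1 0 1 = fR1 0 1 + fZ1 0 1) by decide)
  · exact absurd (congrFun (congrFun h 0) 1) (show ¬ (fU0 0 1 + fW2 0 1 = fR1 0 1 + fZ1 0 1) by decide)
  · exact absurd (congrFun (congrFun h 0) 1) (show ¬ (fU0 0 1 + fR1 0 1 = fR1 0 1 + fZ1 0 1) by decide)
  · exact absurd (congrFun (congrFun h 0) 1) (show ¬ (fU0 0 1 + fR2 0 1 = fR1 0 1 + fZ1 0 1) by decide)
  · exact absurd (congrFun (congrFun h 1) 2) (show ¬ (fU1 1 2 + fZ0 1 2 = fR1 1 2 + fZ1 1 2) by decide)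
  · exact absurd (congrFun (congrFun h 1) 2) (show ¬ (fU1 1 2 + fZ1 1 2 = fR1 1 2 + fZ1 1 2) by decide)
  · exact absurd (congrFun (congrFun h 0) 1) (show ¬ (fU1 0 1 + fU0 0 1 = fR1 0 1 + fZ1 0 1) by decide)
  · exact absurd (congrFun (congrFun h 0) 1) (show ¬ (fU1 0 1 + fU1 0 1 = fR1 0 1 + fZ1 0 1) by decide)
  · exact absurd (congrFun (congrFun h 0) 1) (show ¬ (fU1 0 1 + fW1 0 1 = fR1 0 1 + fZ1 0 1) by decide)
  · exact absurd (congrFun (congrFun h 0) 1) (show ¬ (fU1 0 1 + fW2 0 1 = fR1 0 1 + fZ1 0 1) by decide)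
  · exact absurd (congrFun (congrFun h 0) 1) (show ¬ (fU1 0 1 + fR1 0 1 = fR1 0 1 + fZ1 0 1) by decide)
  · exact absurd (congrFun (congrFun h 0) 1) (show ¬ (fU1 0 1 + fR2 0 1 = fR1 0 1 + fZ1 0 1) by decide)
  · exact absurd (congrFun (congrFun h 1) 3) (show ¬ (fW1 1 3 + fZ0 1 3 = fR1 1 3 + fZ1 1 3) by decide)
  · exact absurd (congrFun (congrFun h 1) 3) (show ¬ (fW1 1 3 + fZ1 1 3 = fR1 1 3 + fZ1 1 3) by decide)
  · exact absurd (congrFun (congrFun h 0) 1) (show ¬ (fW1 0 1 + fU0 0 1 = fR1 0 1 + fZ1 0 1) by decide)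
  · exact absurd (congrFun (congrFun h 0) 1) (show ¬ (fW1 0 1 + fU1 0 1 = fR1 0 1 + fZ1 0 1) by decide)
  · exact absurd (congrFun (congrFun h 0) 1) (show ¬ (fW1 0 1 + fW1 0 1 = fR1 0 1 + fZ1 0 1) by decide)
  · exact absurd (congrFun (congrFun h 0) 1) (show ¬ (fW1 0 1 + fW2 0 1 = fR1 0 1 + fZ1 0 1) by decide)
  · exact absurd (congrFun (congrFun h 0) 1) (show ¬ (fW1 0 1 + fR1 0 1 = fR1 0 1 + fZ1 0 1) by decide)
  · exact absurd (congrFun (congrFun h 0) 1) (show ¬ (fW1 0 1 + fR2 0 1 = fR1 0 1 + fZ1 0 1) by decide)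
  · exact absurd (congrFun (congrFun h 1) 2) (show ¬ (fW2 1 2 + fZ0 1 2 = fR1 1 2 + fZ1 1 2) by decide)
  · exact absurd (congrFun (congrFun h 1) 2) (show ¬ (fW2 1 2 + fZ1 1 2 = fR1 1 2 + fZ1 1 2) by decide)
  · exact absurd (congrFun (congrFun h 0) 1) (show ¬ (fW2 0 1 + fU0 0 1 = fR1 0 1 + fZ1 0 1) by decide)
  · exact absurd (congrFun (congrFun h 0) 1) (show ¬ (fW2 0 1 + fU1 0 1 = fR1 0 1 + fZ1 0 1) by decide)
  · exact absurd (congrFun (congrFun h 0) 1) (show ¬ (fW2 0 1 + fW1 0 1 = fR1 0 1 + fZ1 0 1) by decide)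
  · exact absurd (congrFun (congrFun h 0) 1) (show ¬ (fW2 0 1 + fW2 0 1 = fR1 0 1 + fZ1 0 1) by decide)
  · exact absurd (congrFun (congrFun h 0) 1) (show ¬ (fW2 0 1 + fR1 0 1 = fR1 0 1 + fZ1 0 1) by decide)
  · exact absurd (congrFun (congrFun h 0) 1) (show ¬ (fW2 0 1 + fR2 0 1 = fR1 0 1 + fZ1 0 1) by decide)
  · exact absurd (congrFun (congrFun h 2) 2) (show ¬ (fR1 2 2 + fZ0 2 2 = fR1 2 2 + fZ1 2 2) by decide)
  · exact Or.inl ⟨rfl, rfl⟩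
  · exact absurd (congrFun (congrFun h 0) 1) (show ¬ (fR1 0 1 + fU0 0 1 = fR1 0 1 + fZ1 0 1) by decide)
  · exact absurd (congrFun (congrFun h 0) 1) (show ¬ (fR1 0 1 + fU1 0 1 = fR1 0 1 + fZ1 0 1) by decide)
  · exact absurd (congrFun (congrFun h 0) 1) (show ¬ (fR1 0 1 + fW1 0 1 = fR1 0 1 + fZ1 0 1) by decide)
  · exact absurd (congrFun (congrFun h 0) 1) (show ¬ (fR1 0 1 + fW2 0 1 = fR1 0 1 + fZ1 0 1) by decide)
  · exact absurd (congrFun (congrFun h 0) 1) (show ¬ (fR1 0 1 + fR1 0 1 = fR1 0 1 + fZ1 0 1) by decide)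
  · exact absurd (congrFun (congrFun h 0) 1) (show ¬ (fR1 0 1 + fR2 0 1 = fR1 0 1 + fZ1 0 1) by decide)
  · exact Or.inr (Or.inr ⟨Z1, Or.inr rfl, hL R2 Z1 (by rw [twos_R2, twos_Z1]; norm_num), hL Z0 Z1 (by rw [twos_Z0, twos_Z1]; norm_num)⟩)
  · exact absurd (congrFun (congrFun h 2) 2) (show ¬ (fR2 2 2 + fZ1 2 2 = fR1 2 2 + fZ1 2 2) by decide)
  · exact absurd (congrFun (congrFun h 0) 1) (show ¬ (fR2 0 1 + fU0 0 1 = fR1 0 1 + fZ1 0 1) by decide)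
  · exact absurd (congrFun (congrFun h 0) 1) (show ¬ (fR2 0 1 + fU1 0 1 = fR1 0 1 + fZ1 0 1) by decide)
  · exact absurd (congrFun (congrFun h 0) 1) (show ¬ (fR2 0 1 + fW1 0 1 = fR1 0 1 + fZ1 0 1) by decide)
  · exact absurd (congrFun (congrFun h 0) 1) (show ¬ (fR2 0 1 + fW2 0 1 = fR1 0 1 + fZ1 0 1) by decide)
  · exact absurd (congrFun (congrFun h 0) 1) (show ¬ (fR2 0 1 + fR1 0 1 = fR1 0 1 + fZ1 0 1) by decide)
  · exact absurd (congrFun (congrFun h 0) 1) (show ¬ (fR2 0 1 + fR2 0 1 = fR1 0 1 + fZ1 0 1) by decide)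

theorem triple_ne1 : triple T1 T1 a1 ≠ triple P1 P1 b1 := by
  intro h
  have := congrArg (fun u => u a1) h
  have h1 : T1 ≠ a1 := ne_of_twos (by rw [twos_T1, twos_a1]; norm_num)
  have h2 : P1 ≠ a1 := ne_of_twos (by rw [twos_P1, twos_a1]; norm_num)
  have h3 : b1 ≠ a1 := fun h => absurd (congrFun (congrFun (congrArg Subtype.val h) 0) 4)
    (show ¬ (fb1 0 4 = fa1 0 4) by decide)
  simp only [triple, Finsupp.add_apply, Finsupp.single_eq_same] at this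
  rw [Finsupp.single_eq_of_ne h1.symm, Finsupp.single_eq_of_ne h2.symm,
    Finsupp.single_eq_of_ne h3.symm] at this
  omega

theorem triple_ne2 : triple W1 W2 Z0 ≠ triple U0 R1 Z1 := by
  intro h
  have := congrArg (fun u => u W1) h
  have h1 : W2 ≠ W1 := fun h => absurd (congrFun (congrFun (congrArg Subtype.val h) 1) 2)
    (show ¬ (fW2 1 2 = fW1 1 2) by decide)
  have h2 : Z0 ≠ W1 := ne_of_twos (by rw [twos_Z0, twos_W1]; norm_num)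
  have h3 : U0 ≠ W1 := ne_of_twos (by rw [twos_U0, twos_W1]; norm_num)
  have h4 : R1 ≠ W1 := ne_of_twos (by rw [twos_R1, twos_W1]; norm_num)
  have h5 : Z1 ≠ W1 := ne_of_twos (by rw [twos_Z1, twos_W1]; norm_num)
  simp only [triple, Finsupp.add_apply, Finsupp.single_eq_same] at this
  rw [Finsupp.single_eq_of_ne h1.symm, Finsupp.single_eq_of_ne h2.symm,
    Finsupp.single_eq_of_ne h3.symm, Finsupp.single_eq_of_ne h4.symm,
    Finsupp.single_eq_of_ne h5.symm] at this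
  omega

theorem sum1 : T1.1 + T1.1 + a1.1 = A1 := by
  have h : ∀ i j, fT1 i j + fT1 i j + fa1 i j = fA1 i j := by decide +kernel
  ext i j
  exact h i j

theorem sum1' : P1.1 + P1.1 + b1.1 = A1 := by
  have h : ∀ i j, fP1 i j + fP1 i j + fb1 i j = fA1 i j := by decide +kernel
  ext i j
  exact h i j

theorem sum2 : W1.1 + W2.1 + Z0.1 = A2 := by
  have h : ∀ i j, fW1 i j + fW2 i j + fZ0 i j = fA2 i j := by decide +kernel
  ext i j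
  exact h i j

theorem sum2' : U0.1 + R1.1 + Z1.1 = A2 := by
  have h : ∀ i j, fU0 i j + fR1 i j + fZ1 i j = fA2 i j := by decide +kernel
  ext i j
  exact h i j

theorem two_mem1 (w : LP 6 →₀ ℕ) (hw : matrixOf w = A1) (M : LP 6) (hM : M ∈ w.support) :
    ∃ i j, M.1 i j = 2 := by
  have h := classify1 M (fun i j => by rw [← hw]; exact le_matrixOf w M hM i j)
  rcases h with rfl | rfl | rfl | rfl | rfl
  · exact (show ∃ i j, fa1 i j = 2 by decide +kernel)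
  · exact (show ∃ i j, fb1 i j = 2 by decide +kernel)
  · exact (show ∃ i j, fc1 i j = 2 by decide +kernel)
  · exact (show ∃ i j, fT1 i j = 2 by decide +kernel)
  · exact (show ∃ i j, fP1 i j = 2 by decide +kernel)

theorem two_mem2 (w : LP 6 →₀ ℕ) (hw : matrixOf w = A2) (M : LP 6) (hM : M ∈ w.support) :
    ∃ i j, M.1 i j = 2 := by
  have h := classify2 M (fun i j => by rw [← hw]; exact le_matrixOf w M hM i j)
  rcases h with rfl | rfl | rfl | rfl | rfl | rfl | rfl | rfl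
  · exact (show ∃ i j, fZ0 i j = 2 by decide +kernel)
  · exact (show ∃ i j, fZ1 i j = 2 by decide +kernel)
  · exact (show ∃ i j, fU0 i j = 2 by decide +kernel)
  · exact (show ∃ i j, fU1 i j = 2 by decide +kernel)
  · exact (show ∃ i j, fW1 i j = 2 by decide +kernel)
  · exact (show ∃ i j, fW2 i j = 2 by decide +kernel)
  · exact (show ∃ i j, fR1 i j = 2 by decide +kernel)
  · exact (show ∃ i j, fR2 i j = 2 by decide +kernel)

theorem main1 {k : Type*} [Field k] (L : LinearOrder (LP 6))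
    (hL : ∀ M N : LP 6, twos N < twos M → L.lt M N)
    (G : Set (MvPolynomial (LP 6) k))
    (hG : IsReducedGroebnerBasis (grevlex L) (toricIdeal 6 k) G) :
    ∃ g ∈ G, ∃ u v : LP 6 →₀ ℕ, g = MvPolynomial.monomial u 1 - MvPolynomial.monomial v 1 ∧
      u ≠ v ∧ u.degree = 3 ∧ v.degree = 3 ∧ matrixOf u = A1 ∧ matrixOf v = A1 := by
  have := exists_cubic hG T1 T1 a1 P1 P1 b1 (by rw [sum1, sum1']) triple_ne1
    (std_T1_T1 L hL) (std_T1_a1 L hL) (std_T1_a1 L hL)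
    (std_P1_P1 L hL) (std_P1_b1 L hL) (std_P1_b1 L hL)
  rw [sum1] at this
  exact this

theorem main2 {k : Type*} [Field k] (L : LinearOrder (LP 6))
    (hL : ∀ M N : LP 6, twos N < twos M → L.lt N M)
    (G : Set (MvPolynomial (LP 6) k))
    (hG : IsReducedGroebnerBasis (grevlex L) (toricIdeal 6 k) G) :
    ∃ g ∈ G, ∃ u v : LP 6 →₀ ℕ, g = MvPolynomial.monomial u 1 - MvPolynomial.monomial v 1 ∧
      u ≠ v ∧ u.degree = 3 ∧ v.degree = 3 ∧ matrixOf u = A2 ∧ matrixOf v = A2 := by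
  have := exists_cubic hG W1 W2 Z0 U0 R1 Z1 (by rw [sum2, sum2']) triple_ne2
    (std_W1_W2 L hL) (std_W1_Z0 L hL) (std_W2_Z0 L hL)
    (std_U0_R1 L hL) (std_U0_Z1 L hL) (std_R1_Z1 L hL)
  rw [sum2] at this
  exact this

end Pool.Agent.ToricGB.Six
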