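import Pool.Agent.ToricGB.Basic

/-!
The toric ideal of the polytope of symmetric `n × n` matrices with nonnegative entries and all
row sums `2`.
-/

set_option autoImplicit false

namespace Pool.Agent.ToricGB

open MvPolynomial

/-- The lattice points of `S_n`: symmetric `n × n` matrices with nonnegative integer entries and
every row (hence column) sum equal to `2`. -/
abbrev LP (n : ℕ) : Type :=
  {M : Matrix (Fin n) (Fin n) ℕ // M.IsSymm ∧ ∀ i, ∑ j, M i j = 2}

theorem LP.le_two {n : ℕ} (M : LP n) (i j : Fin n) : M.1 i j ≤ 2 := by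
  have h := Finset.single_le_sum (f := fun j => M.1 i j) (fun _ _ => Nat.zero_le _)
    (Finset.mem_univ j)
  exact h.trans (le_of_eq (M.2.2 i))

instance (n : ℕ) : Finite (LP n) := by
  let f : LP n → (Fin n → Fin n → Fin 3) := fun M i j => ⟨M.1 i j, by have := M.le_two i j; omega⟩
  apply Finite.of_injective f
  intro M N h
  apply Subtype.ext
  funext i j
  have := congrFun (congrFun h i) j
  simpa [f, Fin.ext_iff] using this

/-- The toric ideal of `S_n`: the kernel of `k[t_M : M] → k[x_ij, z]`, `t_M ↦ x^M z`. The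
variable `x_ij` is `X (some (i, j))` and `z` is `X none`. -/
noncomputable def toricIdeal (n : ℕ) (k : Type*) [Field k] : Ideal (MvPolynomial (LP n) k) :=
  RingHom.ker (aeval (fun M : LP n =>
    (∏ i, ∏ j, (X (some (i, j)) : MvPolynomial (Option (Fin n × Fin n)) k) ^ (M.1 i j)) * X none))

/-- The number of entries of `M` equal to `2`. -/
def twos {n : ℕ} (M : LP n) : ℕ :=
  (Finset.univ.filter (fun p : Fin n × Fin n => M.1 p.1 p.2 = 2)).card

/-- The sum, with multiplicities, of the matrices indexing the variables of a monomial. -/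
noncomputable def matrixOf {n : ℕ} (u : LP n →₀ ℕ) : Matrix (Fin n) (Fin n) ℕ :=
  u.sum (fun M c => c • M.1)

/-- The exponent vector of `x^M z`. -/
noncomputable def expo (n : ℕ) (M : LP n) : Option (Fin n × Fin n) →₀ ℕ :=
  Finsupp.equivFunOnFinite.symm (fun o => match o with
    | none => 1
    | some p => M.1 p.1 p.2)

theorem monomial_expo (n : ℕ) (k : Type*) [Field k] (M : LP n) :
    (∏ i, ∏ j, (X (some (i, j)) : MvPolynomial (Option (Fin n × Fin n)) k) ^ (M.1 i j)) * X none
      = monomial (expo n M) 1 := by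
  rw [monomial_eq, C_1, one_mul, Finsupp.prod_fintype _ _ (by simp), Fintype.prod_option,
    Fintype.prod_prod_type, mul_comm]
  simp [expo]

theorem toricIdeal_eq (n : ℕ) (k : Type*) [Field k] : toricIdeal n k = toricKer (expo n) k := by
  unfold toricIdeal toricKer toricMap
  simp only [monomial_expo]

theorem phi_none {n : ℕ} (u : LP n →₀ ℕ) : phi (expo n) u none = u.degree := by
  unfold phi
  rw [Finsupp.sum_apply, Finsupp.degree_apply]
  simp [expo, Finsupp.sum]

theorem phi_some {n : ℕ} (u : LP n →₀ ℕ) (i j : Fin n) :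
    phi (expo n) u (some (i, j)) = matrixOf u i j := by
  unfold phi matrixOf
  rw [Finsupp.sum_apply]
  simp only [Finsupp.sum]
  rw [Matrix.sum_apply]
  simp [expo]

theorem phi_eq_iff {n : ℕ} (u w : LP n →₀ ℕ) :
    phi (expo n) u = phi (expo n) w ↔ u.degree = w.degree ∧ matrixOf u = matrixOf w := by
  constructor
  · intro h
    refine ⟨by rw [← phi_none, ← phi_none, h], ?_⟩
    ext i j
    rw [← phi_some, ← phi_some, h]
  · rintro ⟨h1, h2⟩
    ext o
    rcases o with _ | ⟨i, j⟩
    · rw [phi_none, phi_none, h1]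
    · rw [phi_some, phi_some, h2]

theorem matrixOf_add {n : ℕ} (u w : LP n →₀ ℕ) : matrixOf (u + w) = matrixOf u + matrixOf w := by
  unfold matrixOf
  exact Finsupp.sum_add_index' (by simp) (by intros; rw [add_smul])

theorem matrixOf_single {n : ℕ} (M : LP n) (c : ℕ) : matrixOf (Finsupp.single M c) = c • M.1 := by
  unfold matrixOf
  rw [Finsupp.sum_single_index]
  simp

theorem le_matrixOf {n : ℕ} (u : LP n →₀ ℕ) (M : LP n) (hM : M ∈ u.support) (i j : Fin n) :
    M.1 i j ≤ matrixOf u i j := by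
  have h1 : 1 ≤ u M := Nat.one_le_iff_ne_zero.2 (Finsupp.mem_support_iff.1 hM)
  obtain ⟨c, hc⟩ := exists_add_of_le (show Finsupp.single M 1 ≤ u by
    rwa [Finsupp.single_le_iff])
  rw [hc, matrixOf_add, matrixOf_single, one_smul, Matrix.add_apply]
  omega

/-- The monomial `t_X t_Y`. -/
noncomputable def pair {n : ℕ} (X Y : LP n) : LP n →₀ ℕ := Finsupp.single X 1 + Finsupp.single Y 1

theorem eq_pair_of_degree {n : ℕ} (w : LP n →₀ ℕ) (h : w.degree = 2) : ∃ a b, w = pair a b := by
  have key : ∀ (v : LP n →₀ ℕ), v.degree ≠ 0 → ∃ a v', v = Finsupp.single a 1 + v' := by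
    intro v hv
    have : v ≠ 0 := by
      rintro rfl
      simp at hv
    obtain ⟨a, ha⟩ := Finsupp.support_nonempty_iff.2 this
    obtain ⟨c, hc⟩ := exists_add_of_le (show Finsupp.single a 1 ≤ v by
      rw [Finsupp.single_le_iff]
      exact Nat.one_le_iff_ne_zero.2 (Finsupp.mem_support_iff.1 ha))
    exact ⟨a, c, hc⟩
  obtain ⟨a, v, rfl⟩ := key w (by omega)
  rw [map_add, Finsupp.degree_single] at h
  obtain ⟨b, v', rfl⟩ := key v (by omega)
  rw [map_add, Finsupp.degree_single] at h
  have : v' = 0 := by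
    rw [← Finsupp.degree_eq_zero_iff]
    omega
  subst this
  exact ⟨a, b, by simp [pair]⟩

theorem pair_comm {n : ℕ} (X Y : LP n) : pair X Y = pair Y X := add_comm _ _

theorem revLex_pair {n : ℕ} (L : LinearOrder (LP n)) (X Y a b Z : LP n) (hZ : Z = X ∨ Z = Y)
    (ha : L.lt Z a) (hb : L.lt Z b) : RevLexLT L (pair X Y) (pair a b) := by
  classical
  right
  refine ⟨by simp [pair], ?_⟩
  have main : ∀ X Y : LP n, (Z = X ∨ Z = Y) → L.le X Y → ∃ s, pair a b s < pair X Y s ∧
      ∀ t, L.lt t s → pair X Y t = pair a b t := by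
    intro X Y hZ hXY
    have hXZ : L.le X Z := by
      rcases hZ with rfl | rfl
      · exact L.le_refl _
      · exact hXY
    have hXa : L.lt X a := lt_of_le_of_lt hXZ ha
    have hXb : L.lt X b := lt_of_le_of_lt hXZ hb
    have hne : ∀ t c : LP n, L.lt t c → c ≠ t := fun t c h => ne_of_gt h
    refine ⟨X, ?_, ?_⟩
    · unfold pair
      simp only [Finsupp.add_apply]
      rw [Finsupp.single_eq_of_ne (hne X a hXa).symm, Finsupp.single_eq_of_ne (hne X b hXb).symm,
        Finsupp.single_eq_same]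
      omega
    · intro t ht
      have h1 : L.lt t Y := lt_of_lt_of_le ht hXY
      unfold pair
      simp only [Finsupp.add_apply]
      rw [Finsupp.single_eq_of_ne (hne t X ht).symm, Finsupp.single_eq_of_ne (hne t Y h1).symm,
        Finsupp.single_eq_of_ne (hne t a (lt_trans ht hXa)).symm,
        Finsupp.single_eq_of_ne (hne t b (lt_trans ht hXb)).symm]
  rcases L.le_total X Y with h | h
  · exact main X Y hZ h
  · rw [pair_comm X Y]
    exact main Y X hZ.symm h

/-- A criterion for `t_X t_Y` to be standard. -/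
theorem isStd_pair {n : ℕ} (L : LinearOrder (LP n)) (X Y : LP n)
    (h : ∀ a b : LP n, a.1 + b.1 = X.1 + Y.1 → (a = X ∧ b = Y) ∨ (a = Y ∧ b = X) ∨
      ∃ Z, (Z = X ∨ Z = Y) ∧ L.lt Z a ∧ L.lt Z b) :
    IsStd (expo n) (grevlex L) (pair X Y) := by
  intro w hw
  rw [phi_eq_iff] at hw
  obtain ⟨hd, hm⟩ := hw
  obtain ⟨a, b, rfl⟩ := eq_pair_of_degree w (by rw [hd]; simp [pair])
  have hsum : a.1 + b.1 = X.1 + Y.1 := by
    simpa [pair, matrixOf_add, matrixOf_single] using hm
  rcases h a b hsum with ⟨rfl, rfl⟩ | ⟨rfl, rfl⟩ | ⟨Z, hZ, ha, hb⟩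
  · exact le_refl _
  · rw [pair_comm]
  · exact le_of_lt (revLex_pair L X Y a b Z hZ ha hb)

/-- The monomial `t_X t_Y t_Z`. -/
noncomputable def triple {n : ℕ} (X Y Z : LP n) : LP n →₀ ℕ :=
  Finsupp.single X 1 + Finsupp.single Y 1 + Finsupp.single Z 1

theorem degree_triple {n : ℕ} (X Y Z : LP n) : (triple X Y Z).degree = 3 := by
  simp [triple]

theorem matrixOf_triple {n : ℕ} (X Y Z : LP n) : matrixOf (triple X Y Z) = X.1 + Y.1 + Z.1 := by
  simp [triple, matrixOf_add, matrixOf_single]

theorem std_of_lt_triple {n : ℕ} {m : MonomialOrder (LP n)} (X Y Z : LP n)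
    (h1 : IsStd (expo n) m (pair X Y)) (h2 : IsStd (expo n) m (pair X Z))
    (h3 : IsStd (expo n) m (pair Y Z)) :
    ∀ w, w ≤ triple X Y Z → w ≠ triple X Y Z → IsStd (expo n) m w := by
  classical
  intro w hw hne
  obtain ⟨c, hc⟩ := exists_add_of_le hw
  have hc0 : c ≠ 0 := by
    rintro rfl
    exact hne (by rw [hc, add_zero])
  obtain ⟨x, hx⟩ := Finsupp.support_nonempty_iff.2 hc0
  obtain ⟨d, hd⟩ := exists_add_of_le (show Finsupp.single x 1 ≤ c by
    rw [Finsupp.single_le_iff]
    exact Nat.one_le_iff_ne_zero.2 (Finsupp.mem_support_iff.1 hx))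
  have hle : w + Finsupp.single x 1 ≤ triple X Y Z := by
    rw [hc, hd, ← add_assoc]
    exact le_self_add
  have hx' : x = X ∨ x = Y ∨ x = Z := by
    by_contra hcon
    push Not at hcon
    have := hle x
    simp only [triple, Finsupp.add_apply, Finsupp.single_eq_same] at this
    rw [Finsupp.single_eq_of_ne hcon.1, Finsupp.single_eq_of_ne hcon.2.1,
      Finsupp.single_eq_of_ne hcon.2.2] at this
    omega
  rcases hx' with rfl | rfl | rfl
  · refine h3.of_le ?_
    have : triple x Y Z = pair Y Z + Finsupp.single x 1 := by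
      unfold triple pair; abel
    rw [this] at hle
    exact le_of_add_le_add_right hle
  · refine h2.of_le ?_
    have : triple X x Z = pair X Z + Finsupp.single x 1 := by
      unfold triple pair; abel
    rw [this] at hle
    exact le_of_add_le_add_right hle
  · refine h1.of_le ?_
    have : triple X Y x = pair X Y + Finsupp.single x 1 := by
      unfold triple pair; abel
    rw [this] at hle
    exact le_of_add_le_add_right hle

/-- The criterion used for both conventions: two different products of three variables with the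
same matrix, all of whose degree two divisors are standard, give a cubic element of the reduced
Gröbner basis. -/
theorem exists_cubic {n : ℕ} {k : Type*} [Field k] {m : MonomialOrder (LP n)}
    {G : Set (MvPolynomial (LP n) k)} (hG : IsReducedGroebnerBasis m (toricIdeal n k) G)
    (X Y Z X' Y' Z' : LP n) (hsum : X.1 + Y.1 + Z.1 = X'.1 + Y'.1 + Z'.1)
    (hne : triple X Y Z ≠ triple X' Y' Z')
    (h1 : IsStd (expo n) m (pair X Y)) (h2 : IsStd (expo n) m (pair X Z))
    (h3 : IsStd (expo n) m (pair Y Z))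
    (h1' : IsStd (expo n) m (pair X' Y')) (h2' : IsStd (expo n) m (pair X' Z'))
    (h3' : IsStd (expo n) m (pair Y' Z')) :
    ∃ g ∈ G, ∃ u v : LP n →₀ ℕ, g = monomial u 1 - monomial v 1 ∧ u ≠ v ∧
      u.degree = 3 ∧ v.degree = 3 ∧ matrixOf u = X.1 + Y.1 + Z.1 ∧
      matrixOf v = X.1 + Y.1 + Z.1 := by
  rw [toricIdeal_eq] at hG
  have hphi : phi (expo n) (triple X Y Z) = phi (expo n) (triple X' Y' Z') := by
    rw [phi_eq_iff, degree_triple, degree_triple, matrixOf_triple, matrixOf_triple]
    exact ⟨rfl, hsum⟩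
  have key : ∀ u : LP n →₀ ℕ, u.degree = 3 → matrixOf u = X.1 + Y.1 + Z.1 →
      (∀ w, w ≤ u → w ≠ u → IsStd (expo n) m w) → ¬ IsStd (expo n) m u →
      ∃ g ∈ G, ∃ u v : LP n →₀ ℕ, g = monomial u 1 - monomial v 1 ∧ u ≠ v ∧
      u.degree = 3 ∧ v.degree = 3 ∧ matrixOf u = X.1 + Y.1 + Z.1 ∧
      matrixOf v = X.1 + Y.1 + Z.1 := by
    intro u hd hm hmin hns
    obtain ⟨v, hv, hvu, hmem⟩ := exists_mem_of_minimal hG hns hmin
    rw [phi_eq_iff] at hvu
    refine ⟨_, hmem, u, v, rfl, ?_, hd, hvu.1.trans hd, hm, hvu.2.trans hm⟩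
    rintro rfl
    exact hns hv
  by_cases hs : IsStd (expo n) m (triple X Y Z)
  · refine key (triple X' Y' Z') (degree_triple _ _ _) ?_ (std_of_lt_triple X' Y' Z' h1' h2' h3') ?_
    · rw [matrixOf_triple, hsum]
    · intro hs'
      exact hne (hs.unique hs' hphi)
  · exact key (triple X Y Z) (degree_triple _ _ _) (matrixOf_triple _ _ _)
      (std_of_lt_triple X Y Z h1 h2 h3) hs

end Pool.Agent.ToricGB
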